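import Pool.Agent.H620.Inf2.Chain
import Pool.Agent.H620.Inf.Bad

/-! The exceptional low parts. -/

set_option autoImplicit false

namespace Pool.Agent.H620.Inf2

open Finset
open Pool.Agent.TH930.EBQ (ones wd words cw T sum_wd sum_words_succ)
open Pool.Agent.H499R2.CO (sum_affine odd3)
open Pool.Agent.H620.Inf (ind ind_nonneg ind_le_one ind_true ind_false ind_mono ind_or card_eq_ind sum_cw count_edge)

variable {d : ℤ}

/-- the exceptional low parts -/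
def bad (d : ℤ) (J μ o₀ o₁ G L : ℕ) : Prop :=
  ¬ (o₀ ≤ aw d J L ∧ aw d J L ≤ o₁) ∨ G * 2 ^ J < cwL d J L ∨
    2 ^ J * 3 ^ μ ≤ 3 ^ μ * ((3 ^ (o₀ - μ) * L) % 2 ^ J) + G * 2 ^ J ∨ 3 ^ μ * ((3 ^ (o₀ - μ) * L) % 2 ^ J) < G * 2 ^ J

theorem good_div (hd : Sg d) {J μ o₀ o₁ G L : ℕ} (hμ : μ ≤ o₀) (h : ¬ bad d J μ o₀ o₁ G L) :
    cv d J L / 3 ^ μ / 3 ^ (aw d J L - o₀) = 3 ^ (o₀ - μ) * L / 2 ^ J := by
  unfold bad at h
  push Not at h
  obtain ⟨⟨h1, h2⟩, h3, h4, h4'⟩ := h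
  set W := 3 ^ (aw d J L - o₀) with hW
  have hW1 : 1 ≤ W := Nat.one_le_pow _ _ (by norm_num)
  set A := 3 ^ (o₀ - μ) * L with hA
  have e1 : 3 ^ aw d J L * L = 3 ^ μ * W * A := by
    rw [hA, hW, ← pow_add, ← mul_assoc, ← pow_add]
    congr 2
    omega
  have hcv := cv_mul hd J L
  have e1z : (3 : ℤ) ^ aw d J L * L = ((3 ^ μ * W * A : ℕ) : ℤ) := by rw [← e1]; push_cast; rfl
  rw [e1z] at hcv
  rw [Nat.div_div_eq_div_mul]
  have h5 := Nat.div_add_mod A (2 ^ J)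
  set R := A % 2 ^ J with hR
  have hR2 : R < 2 ^ J := Nat.mod_lt _ (by positivity)
  set QL := A / 2 ^ J with hQL
  have h2J : 0 < 2 ^ J := by positivity
  have h3μ : 0 < 3 ^ μ := by positivity
  have hc : cwL d J L ≤ G * 2 ^ J * W := h3.trans (Nat.le_mul_of_pos_right _ (by omega))
  have hup : 3 ^ μ * W * R + cwL d J L < 2 ^ J * (3 ^ μ * W) := by
    have h6 : 3 ^ μ * R * W + G * 2 ^ J * W < 2 ^ J * 3 ^ μ * W := by
      rw [← add_mul]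
      exact Nat.mul_lt_mul_of_pos_right h4 (by omega)
    calc 3 ^ μ * W * R + cwL d J L ≤ 3 ^ μ * R * W + G * 2 ^ J * W := by
          have : 3 ^ μ * W * R = 3 ^ μ * R * W := by ring
          omega
      _ < 2 ^ J * 3 ^ μ * W := h6
      _ = 2 ^ J * (3 ^ μ * W) := by ring
  have hlo : cwL d J L ≤ 3 ^ μ * W * R := by
    calc cwL d J L ≤ G * 2 ^ J * W := hc
      _ ≤ 3 ^ μ * R * W := Nat.mul_le_mul_right _ h4'
      _ = 3 ^ μ * W * R := by ring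
  have e2 : (2 : ℤ) ^ J * cv d J L = 2 ^ J * (3 ^ μ * W * QL) + (3 ^ μ * W * R + d * cwL d J L) := by
    rw [hcv, ← h5]; push_cast; ring
  have hup' : (3 : ℤ) ^ μ * W * R + cwL d J L < 2 ^ J * (3 ^ μ * W) := by exact_mod_cast hup
  have hlo' : (cwL d J L : ℤ) ≤ 3 ^ μ * W * R := by exact_mod_cast hlo
  have hcw0 : (0 : ℤ) ≤ cwL d J L := by positivity
  have hb1 : (0 : ℤ) ≤ 3 ^ μ * W * R + d * cwL d J L := by
    rcases hd with rfl | rfl
    · have : (0 : ℤ) ≤ 3 ^ μ * W * R := by positivity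
      linarith
    · linarith
  have hb2 : (3 : ℤ) ^ μ * W * R + d * cwL d J L < 2 ^ J * (3 ^ μ * W) := by
    rcases hd with rfl | rfl
    · linarith
    · linarith
  apply Nat.div_eq_of_lt_le
  · have h6 : (2 : ℤ) ^ J * (QL * (3 ^ μ * W)) ≤ 2 ^ J * cv d J L := by
      rw [e2]
      have : (2 : ℤ) ^ J * (QL * (3 ^ μ * W)) = 2 ^ J * (3 ^ μ * W * QL) := by ring
      linarith
    have h7 : (QL * (3 ^ μ * W) : ℤ) ≤ cv d J L := le_of_mul_le_mul_left h6 (by positivity)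
    exact_mod_cast h7
  · have h6 : (2 : ℤ) ^ J * cv d J L < 2 ^ J * ((QL + 1) * (3 ^ μ * W)) := by
      rw [e2]
      have : (2 : ℤ) ^ J * ((QL + 1) * (3 ^ μ * W)) = 2 ^ J * (3 ^ μ * W * QL) + 2 ^ J * (3 ^ μ * W) := by ring
      linarith
    have h7 : (cv d J L : ℤ) < (QL + 1) * (3 ^ μ * W) := lt_of_mul_lt_mul_left h6 (by positivity)
    exact_mod_cast h7

theorem count_cw (hd : Sg d) (J : ℕ) {G : ℕ} (hG : 1 ≤ G) :
    ∑ L ∈ range (2 ^ J), ind (G * 2 ^ J < cwL d J L) ≤ 2 ^ J * (J / (4 * G)) := by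
  have hGr : (0 : ℝ) < G := by exact_mod_cast hG
  have h2J : (0 : ℝ) < 2 ^ J := by positivity
  have h1 : ∑ L ∈ range (2 ^ J), ind (G * 2 ^ J < cwL d J L) ≤ ∑ L ∈ range (2 ^ J), (cwL d J L : ℝ) / (G * 2 ^ J) := by
    apply sum_le_sum
    intro L _
    by_cases h : G * 2 ^ J < cwL d J L
    · rw [ind_true h, one_le_div (by positivity)]
      exact_mod_cast h.le
    · rw [ind_false h]; positivity
  refine h1.trans ?_
  rw [← sum_div]
  have h2 : ∑ L ∈ range (2 ^ J), (cwL d J L : ℝ) = ∑ v ∈ words J, (cw v : ℝ) :=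
    sum_wd hd.odd J (fun v => (cw v : ℝ))
  have h3 : 4 * ∑ v ∈ words J, (cw v : ℝ) = J * 4 ^ J := by exact_mod_cast sum_cw J
  rw [h2, div_le_iff₀ (by positivity)]
  have e : (4 : ℝ) ^ J = 2 ^ J * 2 ^ J := by rw [← mul_pow]; norm_num
  have e2 : (2 : ℝ) ^ J * (J / (4 * G)) * (G * 2 ^ J) = J * (2 ^ J * 2 ^ J) / 4 := by field_simp
  rw [e2, ← e]
  linarith

theorem count_low (J μ j : ℕ) (G : ℕ) :
    ∑ L ∈ range (2 ^ J), ind (3 ^ μ * ((3 ^ j * L) % 2 ^ J) < G * 2 ^ J) ≤ 2 ^ J * (G / 3 ^ μ) + 1 := by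
  set P : ℤ → ℝ := fun x => ind ((3 : ℤ) ^ μ * (x % 2 ^ J) < G * 2 ^ J) with hP
  have h1 := sum_affine J P (fun x m => by
    simp only [hP]
    rw [Int.add_mul_emod_self_right]) (a := 3 ^ j) (odd3 j) 0
  have h2 : ∑ L ∈ range (2 ^ J), ind (3 ^ μ * ((3 ^ j * L) % 2 ^ J) < G * 2 ^ J) =
      ∑ L ∈ range (2 ^ J), P ((3 : ℤ) ^ j * L + 0) := by
    apply sum_congr rfl
    intro L _
    simp only [hP]
    congr 1
    rw [add_zero]
    have : ((3 ^ μ * ((3 ^ j * L) % 2 ^ J) < G * 2 ^ J : Prop) ↔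
      (((3 ^ μ * ((3 ^ j * L) % 2 ^ J) : ℕ) : ℤ) < ((G * 2 ^ J : ℕ) : ℤ))) := by
      exact_mod_cast Iff.rfl
    rw [propext this]
    push_cast
    rfl
  rw [h2, h1]
  have h3 : ∀ L ∈ range (2 ^ J), P (L : ℤ) ≤ ind (L ∈ (range (2 ^ J)).filter (fun L => 3 ^ μ * L < G * 2 ^ J)) := by
    intro L hL
    simp only [hP]
    apply ind_mono
    intro h
    rw [mem_filter]
    refine ⟨hL, ?_⟩
    rw [mem_range] at hL
    have e : (L : ℤ) % 2 ^ J = L := Int.emod_eq_of_lt (by positivity) (by exact_mod_cast hL)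
    rw [e] at h
    exact_mod_cast h
  refine (sum_le_sum h3).trans ?_
  set F := (range (2 ^ J)).filter (fun L => 3 ^ μ * L < G * 2 ^ J) with hF
  have h4 : ∑ L ∈ range (2 ^ J), ind (L ∈ F) = F.card := by
    classical
    rw [← card_eq_ind, filter_mem_eq_inter, inter_eq_right.2 (filter_subset _ _)]
  rw [h4]
  have hsub : F ⊆ range (G * 2 ^ J / 3 ^ μ + 1) := by
    intro L hL
    rw [hF, mem_filter, mem_range] at hL
    rw [mem_range]
    have : L ≤ G * 2 ^ J / 3 ^ μ := by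
      rw [Nat.le_div_iff_mul_le (by positivity), mul_comm]
      exact hL.2.le
    omega
  have h5 := card_le_card hsub
  rw [card_range] at h5
  have h7 : (F.card : ℝ) ≤ ((G * 2 ^ J / 3 ^ μ : ℕ) : ℝ) + 1 := by exact_mod_cast h5
  have h8 : ((G * 2 ^ J / 3 ^ μ : ℕ) : ℝ) ≤ ((G * 2 ^ J : ℕ) : ℝ) / ((3 ^ μ : ℕ) : ℝ) := Nat.cast_div_le
  push_cast at h8
  have e : (2 : ℝ) ^ J * (G / 3 ^ μ) = G * 2 ^ J / 3 ^ μ := by ring
  rw [e]
  linarith

/-- the number of the exceptional low parts -/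
theorem count_bad (hd : Sg d) (J μ o₀ o₁ : ℕ) {G : ℕ} (hG : 1 ≤ G) :
    ∑ L ∈ range (2 ^ J), ind (bad d J μ o₀ o₁ G L) ≤
      ∑ L ∈ range (2 ^ J), ind (¬ (o₀ ≤ aw d J L ∧ aw d J L ≤ o₁)) + 2 ^ J * (J / (4 * G) + 2 * (G / 3 ^ μ)) + 2 := by
  have h1 : ∀ L ∈ range (2 ^ J), ind (bad d J μ o₀ o₁ G L) ≤ ind (¬ (o₀ ≤ aw d J L ∧ aw d J L ≤ o₁)) +
      (ind (G * 2 ^ J < cwL d J L) + (ind (2 ^ J * 3 ^ μ ≤ 3 ^ μ * ((3 ^ (o₀ - μ) * L) % 2 ^ J) + G * 2 ^ J) +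
        ind (3 ^ μ * ((3 ^ (o₀ - μ) * L) % 2 ^ J) < G * 2 ^ J))) := by
    intro L _
    unfold bad
    refine (ind_or _ _).trans (add_le_add_right ((ind_or _ _).trans (add_le_add_right (ind_or _ _) _)) _)
  refine (sum_le_sum h1).trans ?_
  rw [sum_add_distrib, sum_add_distrib, sum_add_distrib]
  have h2 := count_cw hd J hG
  have h3 := count_edge J μ (o₀ - μ) G
  have h4 := count_low J μ (o₀ - μ) G
  rw [mul_add]
  linarith

end Pool.Agent.H620.Inf2
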