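import Pool.Agent.H620.Inf.Coal

/-! The maps `x ↦ x / 2`, `(3 x + d) / 2`, for `d = 1` or `d = -1`: the values after `J` steps, and families of sets that
are invariant up to a shift. -/

set_option autoImplicit false

namespace Pool.Agent.H620.Inf2

open Finset
open Pool.Agent.TH930.EBQ (ones wd words cw T iter_eq wd_congr wd_length sum_wd)
open Pool.Agent.H499R2.CO (Tz)
open Pool.Agent.Q74.BH (cl)

/-- the two signs -/
def Sg (d : ℤ) : Prop := d = 1 ∨ d = -1

theorem Sg.odd {d : ℤ} (h : Sg d) : Odd d := by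
  rcases h with rfl | rfl
  · exact odd_one
  · exact ⟨-1, by norm_num⟩

theorem Sg.mod {d : ℤ} (h : Sg d) : d % 2 = 1 := by
  rcases h with rfl | rfl <;> norm_num

theorem Sg.sq {d : ℤ} (h : Sg d) : d * d = 1 := by
  rcases h with rfl | rfl <;> norm_num

variable {d : ℤ}

theorem T_eq_Tz (d : ℤ) : T d = Tz d := by
  funext x; rfl

theorem T_nonneg (hd : Sg d) {x : ℤ} (hx : 0 ≤ x) : 0 ≤ T d x := by
  unfold T; rcases hd with rfl | rfl <;> split_ifs <;> omega

theorem two_T_ge (hd : Sg d) {x : ℤ} (hx : 0 ≤ x) : x ≤ 2 * T d x := by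
  unfold T; rcases hd with rfl | rfl <;> split_ifs <;> omega

theorem iter_nonneg (hd : Sg d) (J : ℕ) : ∀ {x : ℤ}, 0 ≤ x → 0 ≤ (T d)^[J] x := by
  induction J with
  | zero => intro x hx; exact hx
  | succ J ih => intro x hx; rw [Function.iterate_succ_apply]; exact ih (T_nonneg hd hx)

theorem iter_ge (hd : Sg d) (J : ℕ) : ∀ {x : ℤ}, 0 ≤ x → x ≤ 2 ^ J * (T d)^[J] x := by
  induction J with
  | zero => intro x hx; simp
  | succ J ih =>
    intro x hx
    rw [Function.iterate_succ_apply]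
    have h1 := ih (T_nonneg hd hx)
    have h2 := two_T_ge hd hx
    rw [pow_succ]
    linarith

theorem iter_lt (hd : Sg d) (J : ℕ) : ∀ {x u : ℤ}, x < 2 ^ J * u → (T d)^[J] x < 3 ^ ones (wd d J x) * u := by
  induction J with
  | zero => intro x u hx; simpa [wd] using hx
  | succ J ih =>
    intro x u hx
    rw [Function.iterate_succ_apply]
    rcases Int.emod_two_eq_zero_or_one x with h | h
    · have hd' : decide (x % 2 = 1) = false := by simp [h]
      have hT : T d x = x / 2 := by unfold T; rw [if_pos h]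
      simp only [wd]
      rw [hd', Pool.Agent.TH930.EBQ.ones_cons_false]
      apply ih
      rw [hT]
      have e : (2 : ℤ) ^ (J + 1) * u = 2 * (2 ^ J * u) := by ring
      rw [e] at hx
      omega
    · have hd' : decide (x % 2 = 1) = true := by simp [h]
      have hT : T d x = (3 * x + d) / 2 := by unfold T; rw [if_neg (by omega)]
      simp only [wd]
      rw [hd', Pool.Agent.TH930.EBQ.ones_cons_true]
      have e2 : (3 : ℤ) ^ (ones (wd d J (T d x)) + 1) * u = 3 ^ ones (wd d J (T d x)) * (3 * u) := by ring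
      rw [e2]
      apply ih
      rw [hT]
      have e : (2 : ℤ) ^ (J + 1) * u = 2 * (2 ^ J * u) := by ring
      have e3 : (2 : ℤ) ^ J * (3 * u) = 3 * (2 ^ J * u) := by ring
      rw [e] at hx
      rw [e3]
      rcases hd with rfl | rfl <;> omega

/-- number of odd steps -/
def aw (d : ℤ) (J L : ℕ) : ℕ := ones (wd d J (L : ℤ))

/-- the constant -/
def cwL (d : ℤ) (J L : ℕ) : ℕ := cw (wd d J (L : ℤ))

/-- the value -/
def cv (d : ℤ) (J L : ℕ) : ℕ := ((T d)^[J] (L : ℤ)).toNat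

theorem cv_eq (hd : Sg d) (J L : ℕ) : (T d)^[J] (L : ℤ) = cv d J L :=
  (Int.toNat_of_nonneg (iter_nonneg hd J (by positivity))).symm

theorem cv_mul (hd : Sg d) (J L : ℕ) : (2 : ℤ) ^ J * cv d J L = 3 ^ aw d J L * L + d * cwL d J L := by
  rw [← cv_eq hd]
  exact iter_eq hd.odd J (L : ℤ)

theorem wd_add (hd : Sg d) (J : ℕ) (U : ℤ) (L : ℕ) : wd d J (2 ^ J * U + L) = wd d J (L : ℤ) :=
  wd_congr hd.odd ⟨U, by ring⟩

theorem iter_add (hd : Sg d) (J : ℕ) (U : ℤ) (L : ℕ) :
    (T d)^[J] (2 ^ J * U + L) = 3 ^ aw d J L * U + cv d J L := by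
  have h := iter_eq hd.odd J (2 ^ J * U + (L : ℤ))
  rw [wd_add hd] at h
  have h2 := cv_mul hd J L
  have h3 : (2 : ℤ) ^ J * (T d)^[J] (2 ^ J * U + L) = 2 ^ J * (3 ^ aw d J L * U + cv d J L) := by
    rw [h]
    unfold aw cwL at h2
    unfold aw
    linear_combination -h2
  exact mul_left_cancel₀ (by positivity) h3

theorem cv_lt (hd : Sg d) {J L : ℕ} (hL : L < 2 ^ J) : cv d J L < 3 ^ aw d J L := by
  have h := iter_lt hd J (x := (L : ℤ)) (u := 1) (by rw [mul_one]; exact_mod_cast hL)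
  rw [cv_eq hd, mul_one] at h
  unfold aw
  exact_mod_cast h

theorem aw_le (J L : ℕ) : aw d J L ≤ J := by
  unfold aw
  have := Pool.Agent.TH930.EBQ.ones_le_length (wd d J (L : ℤ))
  rwa [wd_length] at this

/-- the class of the word -/
def cd (d : ℤ) (μ : ℕ) (v : List Bool) : ℕ := ((d * cl μ v) % 3 ^ μ).toNat

theorem cd_lt (d : ℤ) (μ : ℕ) (v : List Bool) : cd d μ v < 3 ^ μ := by
  unfold cd
  have h1 : 0 ≤ (d * cl μ v) % 3 ^ μ := Int.emod_nonneg _ (by positivity)
  have h2 : (d * cl μ v) % 3 ^ μ < 3 ^ μ := Int.emod_lt_of_pos _ (by positivity)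
  have : ((((d * cl μ v) % 3 ^ μ).toNat : ℕ) : ℤ) < ((3 ^ μ : ℕ) : ℤ) := by
    rw [Int.toNat_of_nonneg h1]; push_cast; exact h2
  exact_mod_cast this

/-- the class of the value -/
theorem cv_class (hd : Sg d) {μ J L : ℕ} (h : μ ≤ aw d J L) : cv d J L % 3 ^ μ = cd d μ (wd d J (L : ℤ)) := by
  obtain ⟨_, h2, _, _⟩ := Pool.Agent.Q208.BH.cls
  have h3 : (d * (cv d J L : ℤ)) % 3 ^ μ = cl μ (wd d J (L : ℤ)) := by
    rw [← h2 μ (wd d J (L : ℤ)) (d * cv d J L), wd_length]
    have e := cv_mul hd J L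
    have e2 := hd.sq
    have e3 : (2 : ℤ) ^ J * (d * cv d J L) - cw (wd d J (L : ℤ)) = d * (3 ^ aw d J L * L) := by
      have : cwL d J L = cw (wd d J (L : ℤ)) := rfl
      rw [← this]
      linear_combination d * e + (cwL d J L : ℤ) * e2
    rw [e3]
    exact Dvd.dvd.mul_left (Dvd.dvd.mul_right (pow_dvd_pow 3 h) _) _
  unfold cd
  rw [← h3, Int.mul_emod, Int.emod_emod_of_dvd _ (dvd_refl _), ← Int.mul_emod, ← mul_assoc, hd.sq, one_mul]
  have : ((cv d J L : ℕ) : ℤ) % 3 ^ μ = ((cv d J L % 3 ^ μ : ℕ) : ℤ) := by push_cast; rfl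
  rw [this, Int.toNat_natCast]

section family

variable {A : Type} [AddCommMonoid A] {α β : A} {n₀ : ℕ} {R : A → ℤ → Prop}

/-- families of sets that are invariant up to a shift, from `n₀` on -/
def Fam (d : ℤ) (α β : A) (n₀ : ℕ) (R : A → ℤ → Prop) : Prop :=
  ∀ t x, (n₀ : ℤ) ≤ x → (R t x ↔ R (t + (α + if x % 2 = 0 then 0 else β)) (T d x))

theorem fam_iter (hR : Fam d α β n₀ R) (n : ℕ) : ∀ t x, (∀ i < n, (n₀ : ℤ) ≤ (T d)^[i] x) →
    (R t x ↔ R (t + (n • α + ones (wd d n x) • β)) ((T d)^[n] x)) := by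
  induction n with
  | zero => intro t x _; simp [wd]
  | succ n ih =>
    intro t x h
    have h0 := h 0 (by omega)
    rw [Function.iterate_zero, id] at h0
    rw [hR t x h0, ih _ (T d x) (fun i hi => by
      have := h (i + 1) (by omega)
      rwa [Function.iterate_succ_apply] at this), Function.iterate_succ_apply]
    have e : t + (α + if x % 2 = 0 then 0 else β) + (n • α + ones (wd d n (T d x)) • β) =
        t + ((n + 1) • α + ones (wd d (n + 1) x) • β) := by
      simp only [wd]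
      rcases Int.emod_two_eq_zero_or_one x with h | h
      · have hd' : decide (x % 2 = 1) = false := by simp [h]
        rw [hd', Pool.Agent.TH930.EBQ.ones_cons_false, if_pos h, succ_nsmul]
        abel
      · have hd' : decide (x % 2 = 1) = true := by simp [h]
        rw [hd', Pool.Agent.TH930.EBQ.ones_cons_true, if_neg (by omega), succ_nsmul, succ_nsmul]
        abel
    rw [e]

theorem iter_large (hd : Sg d) {n : ℕ} {x : ℤ} (hx : 2 ^ n * (n₀ : ℤ) ≤ x) : ∀ i ≤ n, (n₀ : ℤ) ≤ (T d)^[i] x := by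
  intro i hi
  have h0 : 0 ≤ x := le_trans (by positivity) hx
  have h1 := iter_ge hd i h0
  have h2 : (2 : ℤ) ^ i * n₀ ≤ 2 ^ i * (T d)^[i] x := by
    refine le_trans ?_ (hx.trans h1)
    exact mul_le_mul_of_nonneg_right (pow_le_pow_right₀ (by norm_num) hi) (by positivity)
  exact le_of_mul_le_mul_left h2 (by positivity)

theorem fam_val (hd : Sg d) (hR : Fam d α β n₀ R) (t : A) (J : ℕ) {U : ℤ} (hU : (n₀ : ℤ) ≤ U) (L : ℕ) :
    R t (2 ^ J * U + L) ↔ R (t + (J • α + aw d J L • β)) (3 ^ aw d J L * U + cv d J L) := by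
  have h := fam_iter hR J t (2 ^ J * U + L) (fun i hi => iter_large hd (n := J) (by
    have : (2 : ℤ) ^ J * n₀ ≤ 2 ^ J * U := mul_le_mul_of_nonneg_left hU (by positivity)
    have : (0 : ℤ) ≤ L := by positivity
    linarith) i hi.le)
  rw [wd_add hd, iter_add hd] at h
  exact h

end family

end Pool.Agent.H620.Inf2
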