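import Pool.Agent.H620.Inf2.Model

/-! The chain of the partitions. -/

set_option autoImplicit false

namespace Pool.Agent.H620.Inf2

open Finset
open Pool.Agent.TH930.EBQ (ones wd words cw T sum_wd)
open Pool.Agent.H620.Inf (ind ind_nonneg ind_le_one ind_true ind_false ind_mono ind_or ind_tri nq nq_nonneg nq_le_one
  X dl dl_nonneg ee dl_le Dv Dv_le ef)

theorem sum_dl_le (d : ℤ) (V χ : ℕ → ℕ → ℕ → Prop) (μ J : ℕ) :
    ∑ v ∈ words J, dl χ μ (ones v) ≤ mm d μ J (ee V χ 0) + mm d μ J (ee V χ 1) := by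
  unfold mm
  rw [← sum_add_distrib]
  exact sum_le_sum fun v _ => dl_le V χ μ (ones v) _

theorem mm_ef (d : ℤ) (V χ : ℕ → ℕ → ℕ → Prop) {μ J o₀ o₁ : ℕ} (h0 : μ ≤ o₀) {p : ℝ} (hp0 : 0 < p)
    (hp : ∀ o ∈ Icc o₀ o₁, p * 2 ^ J ≤ (((words J).filter (fun v => ones v = o)).card : ℝ)) :
    mm d μ J (ef V χ o₀ o₁) ≤ mm d μ J (ee V χ 0) + 2 / p * (mm d μ J (ee V χ 0) + mm d μ J (ee V χ 1)) := by
  set Δ := ∑ o ∈ Icc o₀ o₁, dl χ μ o with hΔ
  have hΔ0 : 0 ≤ Δ := sum_nonneg fun _ _ => dl_nonneg _ _ _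
  have h2J : (0 : ℝ) < 2 ^ J := by positivity
  have hpt : ∀ o r, nq (ef V χ o₀ o₁) μ o r ≤ nq (ee V χ 0) μ o r + 2 * Δ := by
    intro o r
    by_cases ho : o₀ ≤ o ∧ o ≤ o₁
    · obtain ⟨ho1, ho2⟩ := ho
      have h1 : Dv χ μ o₀ o ≤ 2 * Δ := by
        obtain ⟨n, rfl⟩ : ∃ n, o = o₀ + n := ⟨o - o₀, by omega⟩
        have h2 := Dv_le χ h0 n
        have h3 : ∑ o ∈ Icc o₀ (o₀ + n), dl χ μ o ≤ Δ :=
          sum_le_sum_of_subset_of_nonneg (Icc_subset_Icc le_rfl ho2) (fun _ _ _ => dl_nonneg _ _ _)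
        have h4 := dl_nonneg χ μ (o₀ + n)
        linarith
      refine le_trans ?_ (add_le_add_right h1 _)
      unfold nq Dv
      rw [if_pos (by omega), if_pos (by omega), ← add_div, ← sum_add_distrib]
      apply div_le_div_of_nonneg_right _ (by positivity)
      apply sum_le_sum
      intro q _
      refine (ind_mono (fun h => h.2.2)).trans ?_
      exact ind_tri _ _ _
    · have : nq (ef V χ o₀ o₁) μ o r = 0 := by
        unfold nq
        split_ifs
        · rw [sum_eq_zero, zero_div]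
          intro q _
          exact ind_false (fun h => ho ⟨h.1, h.2.1⟩)
        · rfl
      rw [this]
      have := nq_nonneg (ee V χ 0) μ o r
      positivity
  have h1 : mm d μ J (ef V χ o₀ o₁) ≤ mm d μ J (ee V χ 0) + 2 ^ J * (2 * Δ) := by
    unfold mm
    refine (sum_le_sum fun v _ => hpt (ones v) _).trans ?_
    rw [sum_add_distrib, sum_const, Pool.Agent.TH930.EBQ.card_words, nsmul_eq_mul]
    push_cast
    exact le_rfl
  have h2 : p * 2 ^ J * Δ ≤ mm d μ J (ee V χ 0) + mm d μ J (ee V χ 1) := by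
    refine le_trans ?_ (sum_dl_le d V χ μ J)
    rw [hΔ, mul_sum]
    have h3 : ∑ o ∈ Icc o₀ o₁, p * 2 ^ J * dl χ μ o ≤
        ∑ o ∈ Icc o₀ o₁, ∑ v ∈ (words J).filter (fun v => ones v = o), dl χ μ (ones v) := by
      apply sum_le_sum
      intro o ho
      have h4 : ∑ v ∈ (words J).filter (fun v => ones v = o), dl χ μ (ones v) =
          ((words J).filter (fun v => ones v = o)).card * dl χ μ o := by
        rw [← nsmul_eq_mul, ← sum_const]
        apply sum_congr rfl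
        intro v hv
        rw [(mem_filter.1 hv).2]
      rw [h4]
      exact mul_le_mul_of_nonneg_right (hp o ho) (dl_nonneg _ _ _)
    refine h3.trans ?_
    rw [← sum_biUnion]
    · apply sum_le_sum_of_subset_of_nonneg
      · intro v hv
        rw [mem_biUnion] at hv
        obtain ⟨o, _, hv⟩ := hv
        exact (mem_filter.1 hv).1
      · intro _ _ _
        exact dl_nonneg _ _ _
    · intro a _ b _ hab
      rw [Function.onFun, disjoint_left]
      intro v hv1 hv2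
      exact hab ((mem_filter.1 hv1).2.symm.trans (mem_filter.1 hv2).2)
  have h3 : 2 ^ J * (2 * Δ) ≤ 2 / p * (mm d μ J (ee V χ 0) + mm d μ J (ee V χ 1)) := by
    rw [div_mul_eq_mul_div, le_div_iff₀ hp0]
    calc 2 ^ J * (2 * Δ) * p = 2 * (p * 2 ^ J * Δ) := by ring
      _ ≤ _ := by linarith
  linarith

/-- a good class -/
theorem exists_class (d : ℤ) {ι : Type*} (s : Finset ι) (e : ι → ℕ → ℕ → ℕ → Prop) {μ J o₀ : ℕ} {p M : ℝ}
    (hp0 : 0 < p) (hp : p * 2 ^ J ≤ (((words J).filter (fun v => ones v = o₀)).card : ℝ))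
    (hM : ∑ U ∈ s, mm d μ J (e U) ≤ M) : ∃ r < 3 ^ μ, ∑ U ∈ s, nq (e U) μ o₀ r ≤ M / (p * 2 ^ J) := by
  set W := (words J).filter (fun v => ones v = o₀) with hW
  have h2J : (0 : ℝ) < 2 ^ J := by positivity
  have hpJ : 0 < p * 2 ^ J := by positivity
  have hne : W.Nonempty := by
    rw [← card_pos]
    have : (0 : ℝ) < W.card := lt_of_lt_of_le hpJ hp
    exact_mod_cast this
  have hM0 : 0 ≤ M := le_trans (sum_nonneg fun _ _ => mm_nonneg _ _ _ _) hM
  have h1 : ∑ v ∈ W, ∑ U ∈ s, nq (e U) μ o₀ (cd d μ v) ≤ M := by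
    refine le_trans ?_ hM
    rw [sum_comm]
    apply sum_le_sum
    intro U _
    unfold mm
    calc ∑ v ∈ W, nq (e U) μ o₀ (cd d μ v) = ∑ v ∈ W, nq (e U) μ (ones v) (cd d μ v) := by
          apply sum_congr rfl
          intro v hv
          rw [(mem_filter.1 hv).2]
      _ ≤ ∑ v ∈ words J, nq (e U) μ (ones v) (cd d μ v) :=
          sum_le_sum_of_subset_of_nonneg (filter_subset _ _) (fun _ _ _ => nq_nonneg _ _ _ _)
  have h2 : ∑ v ∈ W, ∑ U ∈ s, nq (e U) μ o₀ (cd d μ v) ≤ ∑ v ∈ W, M / (p * 2 ^ J) := by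
    refine h1.trans ?_
    rw [sum_const, nsmul_eq_mul, mul_div_assoc', le_div_iff₀ hpJ, mul_comm]
    exact mul_le_mul_of_nonneg_right hp hM0
  obtain ⟨v, _, hv⟩ := exists_le_of_sum_le hne h2
  exact ⟨cd d μ v, cd_lt d μ v, hv⟩

end Pool.Agent.H620.Inf2
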