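import Pool.Agent.H620.Inf2.Base

/-! The values of two low parts in the same part of the partition coalesce for half of the middle parts. -/

set_option autoImplicit false

namespace Pool.Agent.H620.Inf2

open Finset
open Pool.Agent.TH930.EBQ (ones wd words cw T ones_cons_true ones_cons_false)
open Pool.Agent.H499R2.CO (Tz q step surv surv_periodic sum_affine count_surv odd3 nx pair_step)

/-- coalescence, with the numbers of odd steps -/
theorem coalW {d : ℤ} (hd : d % 2 = 1) : ∀ (k i : ℕ) (r x : ℤ), ¬ surv d k (i, r) x →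
    ∃ t ≤ k, (T d)^[t] x = (T d)^[t] (3 ^ i * x + d * r) ∧
      ones (wd d t x) = ones (wd d t (3 ^ i * x + d * r)) + i := by
  intro k
  induction k with
  | zero =>
    intro i r x h
    simp only [surv, ne_eq, not_not, Prod.mk.injEq] at h
    obtain ⟨rfl, rfl⟩ := h
    exact ⟨0, le_rfl, by simp, rfl⟩
  | succ k ih =>
    intro i r x h
    by_cases h0 : (i, r) = ((0 : ℕ), (0 : ℤ))
    · rw [Prod.mk.injEq] at h0
      obtain ⟨rfl, rfl⟩ := h0
      exact ⟨0, by omega, by simp, rfl⟩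
    · have h' : ¬ surv d k (step (i, r) (decide (x % 2 = 1))) (nx d (i, r) x) := by
        intro h2; exact h ⟨h0, h2⟩
      have hcons : ∀ (t : ℕ) (z : ℤ), (ones (wd d (t + 1) z) : ℤ) = ones (wd d t (T d z)) + z % 2 := by
        intro t z
        simp only [wd]
        rcases Int.emod_two_eq_zero_or_one z with g | g
        · have hd' : decide (z % 2 = 1) = false := by simp [g]
          rw [hd', ones_cons_false, g, add_zero]
        · have hd' : decide (z % 2 = 1) = true := by simp [g]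
          rw [hd', ones_cons_true, g]
          push_cast; rfl
      rcases pair_step hd i r x with ⟨e1, e2, e3⟩ | ⟨e1, e2, e3, e4, e5, e6⟩
      · rw [e1] at h'
        obtain ⟨t, ht, hh, ho⟩ := ih (step (i, r) (decide (x % 2 = 1))).1 (step (i, r) (decide (x % 2 = 1))).2 _ h'
        rw [e2] at hh ho
        refine ⟨t + 1, by omega, hh, ?_⟩
        have c1 := hcons t x
        have c2 := hcons t (3 ^ i * x + d * r)
        rw [T_eq_Tz] at c1 c2
        zify
        zify at ho
        rw [c1, c2, ho]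
        linarith
      · rw [e1] at h'
        obtain ⟨t, ht, hh, ho⟩ := ih (step (i, r) (decide (x % 2 = 1))).1 (step (i, r) (decide (x % 2 = 1))).2 _ h'
        rw [e2] at hh ho
        refine ⟨t + 1, by omega, hh.symm, ?_⟩
        have c1 := hcons t x
        have c2 := hcons t (3 ^ i * x + d * r)
        rw [T_eq_Tz] at c1 c2
        zify
        zify at ho
        rw [c1, c2, ho, e4, e5, e6, e3]
        push_cast
        ring

variable {d : ℤ} {A : Type} [AddCommMonoid A] {α β : A} {n₀ : ℕ} {R : A → ℤ → Prop}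

/-- the parts -/
def pt (d : ℤ) (μ par J L : ℕ) : ℕ × ℕ :=
  ((aw d J L + par) / 2, cv d J L / 3 ^ (μ + (aw d J L + par) % 2))

theorem coal_one (hd : Sg d) (hR : Fam d α β n₀ R) (s : A) {b i : ℕ} {r : ℤ} (hq : q step (0, 0) b (i, r) ≤ 1 / 2)
    {J L L' : ℕ} (ha : aw d J L' = aw d J L + i) (hc : (cv d J L' : ℤ) = 3 ^ i * cv d J L + d * r) :
    ∃ G ⊆ range (2 ^ b), (2 : ℝ) ^ b ≤ 2 * G.card ∧ ∀ M ∈ G, ∀ U : ℕ, n₀ ≤ U →
      (R s ((2 ^ J * (2 ^ b * U + M) + L : ℕ) : ℤ) ↔ R s ((2 ^ J * (2 ^ b * U + M) + L' : ℕ) : ℤ)) := by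
  classical
  refine ⟨(range (2 ^ b)).filter (fun M : ℕ => ¬ surv d b (i, r) (3 ^ aw d J L * (M : ℤ) + cv d J L)),
    filter_subset _ _, ?_, ?_⟩
  · have h1 := sum_affine b (fun x : ℤ => if surv d b (i, r) x then (1 : ℝ) else 0)
      (fun x m => by simp only [surv_periodic hd.mod]) (a := 3 ^ aw d J L) (odd3 _) (cv d J L)
    rw [count_surv hd.mod] at h1
    have h2 : ((((range (2 ^ b)).filter (fun M : ℕ => surv d b (i, r) (3 ^ aw d J L * (M : ℤ) + cv d J L))).card : ℕ) : ℝ) =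
        2 ^ b * q step (0, 0) b (i, r) := by
      rw [← h1, card_filter]
      push_cast
      rfl
    have h3 := card_filter_add_card_filter_not (s := range (2 ^ b))
      (fun M : ℕ => surv d b (i, r) (3 ^ aw d J L * (M : ℤ) + cv d J L))
    rw [card_range] at h3
    have h4 : ((((range (2 ^ b)).filter (fun M : ℕ => surv d b (i, r) (3 ^ aw d J L * (M : ℤ) + cv d J L))).card : ℕ) : ℝ) +
      (((range (2 ^ b)).filter (fun M : ℕ => ¬ surv d b (i, r) (3 ^ aw d J L * (M : ℤ) + cv d J L))).card : ℕ) = 2 ^ b := by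
      exact_mod_cast h3
    have hp : (0 : ℝ) < 2 ^ b := by positivity
    nlinarith
  · intro M hM U hU
    rw [mem_filter] at hM
    have hM2 := hM.2
    set V : ℕ := 2 ^ b * U + M with hV
    set x : ℤ := 3 ^ aw d J L * (V : ℤ) + cv d J L with hx
    have h1 : ¬ surv d b (i, r) x := by
      have e : x = (3 ^ aw d J L * (M : ℤ) + cv d J L) + (3 ^ aw d J L * U) * 2 ^ b := by
        rw [hx, hV]; push_cast; ring
      rw [e, surv_periodic hd.mod]
      exact hM2
    obtain ⟨t, ht, h2, h3⟩ := coalW hd.mod b i r x h1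
    have e1 : ((2 ^ J * V + L : ℕ) : ℤ) = 2 ^ J * (V : ℤ) + L := by push_cast; ring
    have e2 : ((2 ^ J * V + L' : ℕ) : ℤ) = 2 ^ J * (V : ℤ) + L' := by push_cast; ring
    have hVn : 2 ^ b * (n₀ : ℤ) ≤ V := by
      rw [hV]
      push_cast
      have : (2 : ℤ) ^ b * n₀ ≤ 2 ^ b * U := mul_le_mul_of_nonneg_left (by exact_mod_cast hU) (by positivity)
      have : (0 : ℤ) ≤ M := by positivity
      linarith
    have hVn' : (n₀ : ℤ) ≤ V := by
      refine le_trans ?_ hVn
      exact le_mul_of_one_le_left (by positivity) (one_le_pow₀ (by norm_num))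
    rw [e1, e2, fam_val hd hR s J hVn', fam_val hd hR s J hVn', ← hx, ha, hc]
    have e3 : (3 : ℤ) ^ (aw d J L + i) * (V : ℤ) + (3 ^ i * cv d J L + d * r) = 3 ^ i * x + d * r := by
      rw [hx, pow_add]; ring
    rw [e3]
    have hx2 : 2 ^ b * (n₀ : ℤ) ≤ x := by
      rw [hx]
      have g1 : (V : ℤ) ≤ 3 ^ aw d J L * V := le_mul_of_one_le_left (by positivity) (one_le_pow₀ (by norm_num))
      have g2 : (0 : ℤ) ≤ cv d J L := by positivity
      linarith
    have hx3 : 2 ^ b * (n₀ : ℤ) ≤ 3 ^ i * x + d * r := by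
      rw [← e3, ← hc]
      have g1 : (V : ℤ) ≤ 3 ^ (aw d J L + i) * V := le_mul_of_one_le_left (by positivity) (one_le_pow₀ (by norm_num))
      have g2 : (0 : ℤ) ≤ cv d J L' := by positivity
      linarith
    rw [fam_iter hR t _ x (fun j hj => iter_large hd hx2 j (by omega)),
      fam_iter hR t _ (3 ^ i * x + d * r) (fun j hj => iter_large hd hx3 j (by omega)), h2, h3]
    have e4 : s + (J • α + aw d J L • β) + (t • α + (ones (wd d t (3 ^ i * x + d * r)) + i) • β) =
        s + (J • α + (aw d J L + i) • β) + (t • α + ones (wd d t (3 ^ i * x + d * r)) • β) := by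
      rw [add_nsmul, add_nsmul]
      abel
    rw [e4]

theorem coal_part (hd : Sg d) (hR : Fam d α β n₀ R) (s : A) {μ b : ℕ}
    (hq : ∀ i ≤ 1, ∀ r : ℤ, |r| ≤ 3 ^ (μ + 1) → q step (0, 0) b (i, r) ≤ 1 / 2) {par J L L' : ℕ}
    (h : pt d μ par J L = pt d μ par J L') :
    ∃ G ⊆ range (2 ^ b), (2 : ℝ) ^ b ≤ 2 * G.card ∧ ∀ M ∈ G, ∀ U : ℕ, n₀ ≤ U →
      (R s ((2 ^ J * (2 ^ b * U + M) + L : ℕ) : ℤ) ↔ R s ((2 ^ J * (2 ^ b * U + M) + L' : ℕ) : ℤ)) := by
  have habs : ∀ r : ℤ, |d * r| = |r| := by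
    intro r
    rw [abs_mul]
    rcases hd with rfl | rfl <;> simp
  have hdd : ∀ r : ℤ, d * (d * r) = r := by
    intro r; rw [← mul_assoc, hd.sq, one_mul]
  have key : ∀ {L L' : ℕ}, pt d μ par J L = pt d μ par J L' → aw d J L ≤ aw d J L' →
      ∃ G ⊆ range (2 ^ b), (2 : ℝ) ^ b ≤ 2 * G.card ∧ ∀ M ∈ G, ∀ U : ℕ, n₀ ≤ U →
      (R s ((2 ^ J * (2 ^ b * U + M) + L : ℕ) : ℤ) ↔ R s ((2 ^ J * (2 ^ b * U + M) + L' : ℕ) : ℤ)) := by
    intro L L' h hle
    unfold pt at h
    rw [Prod.mk.injEq] at h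
    obtain ⟨h1, h2⟩ := h
    rcases (show aw d J L' = aw d J L ∨ aw d J L' = aw d J L + 1 by omega) with ha | ha
    · refine coal_one hd hR s (i := 0) (r := d * ((cv d J L' : ℤ) - cv d J L)) (hq 0 (by norm_num) _ ?_) ha
        (by rw [hdd]; ring)
      rw [habs]
      rw [ha] at h2
      set e := (aw d J L + par) % 2 with he
      have he2 : e ≤ 1 := by omega
      have hp : 0 < 3 ^ (μ + e) := by positivity
      have a1 := Nat.div_mul_le_self (cv d J L) (3 ^ (μ + e))
      have a2 := Nat.lt_div_mul_add (a := cv d J L) hp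
      have a3 := Nat.div_mul_le_self (cv d J L') (3 ^ (μ + e))
      have a4 := Nat.lt_div_mul_add (a := cv d J L') hp
      have a5 : 3 ^ (μ + e) ≤ 3 ^ (μ + 1) := Nat.pow_le_pow_right (by norm_num) (by omega)
      rw [h2] at a1 a2
      have a5' : ((3 ^ (μ + e) : ℕ) : ℤ) ≤ 3 ^ (μ + 1) := by exact_mod_cast a5
      set X := cv d J L' / 3 ^ (μ + e) * 3 ^ (μ + e) with hX
      rw [abs_le]
      constructor <;> omega
    · have hpar : (aw d J L + par) % 2 = 0 := by omega
      have hpar' : (aw d J L' + par) % 2 = 1 := by omega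
      rw [hpar, hpar', add_zero] at h2
      refine coal_one hd hR s (i := 1) (r := d * ((cv d J L' : ℤ) - 3 * cv d J L)) (hq 1 le_rfl _ ?_) ha
        (by rw [hdd]; ring)
      rw [habs]
      have hp : 0 < 3 ^ μ := by positivity
      have hp' : 0 < 3 ^ (μ + 1) := by positivity
      have a1 := Nat.div_mul_le_self (cv d J L) (3 ^ μ)
      have a2 := Nat.lt_div_mul_add (a := cv d J L) hp
      have a3 := Nat.div_mul_le_self (cv d J L') (3 ^ (μ + 1))
      have a4 := Nat.lt_div_mul_add (a := cv d J L') hp'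
      rw [h2] at a1 a2
      have e1 : (3 : ℤ) ^ (μ + 1) = 3 * ((3 ^ μ : ℕ) : ℤ) := by push_cast; ring
      have e2 : (3 : ℕ) ^ (μ + 1) = 3 * 3 ^ μ := by ring
      rw [e1]
      rw [e2] at a1 a2 a3 a4
      set Y := cv d J L' / (3 * 3 ^ μ) with hY
      have e3 : Y * (3 * 3 ^ μ) = 3 * (Y * 3 ^ μ) := by ring
      rw [e3] at a3 a4
      set X := Y * 3 ^ μ with hX
      rw [abs_le]
      constructor <;> omega
  rcases le_total (aw d J L) (aw d J L') with hle | hle
  · exact key h hle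
  · obtain ⟨G, h1, h2, h3⟩ := key h.symm hle
    exact ⟨G, h1, h2, fun M hM U hU => (h3 M hM U hU).symm⟩

end Pool.Agent.H620.Inf2
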