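import Pool.Agent.H620.Inf2.Tools

/-! Circuits whose depth grows with the number of the digits. -/

set_option autoImplicit false

namespace Pool.Agent.H620.Inf2

open Finset Filter Topology
open Pool.Agent.H620.Inf (TI In ne' bits TI_approx TI_le_TS ev_exp ev_pow circ_TS)
open DomAC0

theorem ev_depth {c η : ℝ} (hη : 0 < η) (hc0 : 0 < c) : ∀ᶠ x : ℝ in atTop, 3 ≤ x ∧ 0 ≤ Real.log (Real.log x) ∧
    10 * c / η ≤ Real.log (Real.log x) + 1 ∧ Real.log 74 ≤ η / 2 * Real.log x := by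
  have h1 : Tendsto (fun x : ℝ => Real.log (Real.log x)) atTop atTop :=
    Real.tendsto_log_atTop.comp Real.tendsto_log_atTop
  have h2 : Tendsto (fun x : ℝ => η / 2 * Real.log x) atTop atTop :=
    Real.tendsto_log_atTop.const_mul_atTop (by positivity)
  filter_upwards [eventually_ge_atTop 3, h1.eventually_ge_atTop 0, h1.eventually_ge_atTop (10 * c / η),
    h2.eventually_ge_atTop (Real.log 74)] with x a1 a2 a3 a4
  exact ⟨a1, a2, by linarith, a4⟩

theorem depth_num {c η x : ℝ} {d : ℕ} (hη : 0 < η) (hc0 : 0 < c) (hc1 : c ≤ 1) (hx3 : 3 ≤ x)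
    (hz0 : 0 ≤ Real.log (Real.log x)) (hz : 10 * c / η ≤ Real.log (Real.log x) + 1)
    (h74 : Real.log 74 ≤ η / 2 * Real.log x) (hd : ((d : ℝ) + 1) * (Real.log (Real.log x) + 1) ≤ c * Real.log x) :
    x * ((d : ℝ) + 1) ≤ Real.exp (1 * x ^ (c / ((d : ℝ) + 1))) ∧
    (72 * 24 ^ d * 5 ^ (d + 1) + 2) * x ^ c ≤ x ^ (c + η) := by
  have hx0 : 0 < x := by linarith
  set y := Real.log x with hy
  set z := Real.log y with hz'
  have hy1 : 1 ≤ y := by
    rw [hy, ← Real.log_exp 1]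
    apply Real.log_le_log (Real.exp_pos _)
    have := Real.exp_one_lt_d9
    linarith
  have hy0 : 0 < y := by linarith
  have hD0 : (0 : ℝ) < (d : ℝ) + 1 := by positivity
  have hDy : (d : ℝ) + 1 ≤ y := by nlinarith
  have hyx : y ≤ x := by
    rw [hy]
    have := Real.log_le_sub_one_of_pos hx0
    linarith
  constructor
  · have h1 : Real.exp (z + 1) ≤ x ^ (c / ((d : ℝ) + 1)) := by
      rw [Real.rpow_def_of_pos hx0]
      apply Real.exp_le_exp.2
      rw [mul_div_assoc', le_div_iff₀ hD0, ← hy]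
      linarith
    have h2 : 2 * y ≤ Real.exp (z + 1) := by
      rw [Real.exp_add, hz', Real.exp_log hy0]
      have := Real.exp_one_gt_d9
      nlinarith
    have h3 : x * ((d : ℝ) + 1) ≤ Real.exp (2 * y) := by
      have e : Real.exp (2 * y) = x * x := by
        rw [two_mul, Real.exp_add, hy, Real.exp_log hx0]
      rw [e]
      gcongr
      linarith
    refine h3.trans (Real.exp_le_exp.2 ?_)
    linarith
  · have h1 : (72 : ℝ) * 24 ^ d * 5 ^ (d + 1) + 2 ≤ 74 * 120 ^ (d + 1) := by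
      have h2 : (72 : ℝ) * 24 ^ d * 5 ^ (d + 1) ≤ 72 * 120 ^ (d + 1) := by
        have h3 : (24 : ℝ) ^ d ≤ 24 ^ (d + 1) := pow_le_pow_right₀ (by norm_num) (by omega)
        calc (72 : ℝ) * 24 ^ d * 5 ^ (d + 1) ≤ 72 * 24 ^ (d + 1) * 5 ^ (d + 1) := by gcongr
          _ = 72 * 120 ^ (d + 1) := by rw [mul_assoc, ← mul_pow]; norm_num
      have h4 : (1 : ℝ) ≤ 120 ^ (d + 1) := one_le_pow₀ (by norm_num)
      linarith
    have h5 : (74 : ℝ) * 120 ^ (d + 1) ≤ x ^ η := by
      have e1 : (74 : ℝ) * 120 ^ (d + 1) = Real.exp (Real.log 74 + (d + 1) * Real.log 120) := by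
        rw [Real.exp_add, Real.exp_log (by norm_num), mul_comm ((d : ℝ) + 1), Real.exp_mul, Real.exp_log (by norm_num)]
        congr 1
        norm_cast
      rw [e1, Real.rpow_def_of_pos hx0]
      apply Real.exp_le_exp.2
      have h6 : Real.log 120 ≤ 5 := by
        rw [Real.log_le_iff_le_exp (by norm_num)]
        have h7 : (2.7 : ℝ) ^ 5 ≤ Real.exp 5 := by
          have h8 := Real.exp_one_gt_d9
          calc (2.7 : ℝ) ^ 5 ≤ Real.exp 1 ^ 5 := by gcongr; linarith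
            _ = Real.exp 5 := by rw [← Real.exp_nat_mul]; norm_num
        refine le_trans ?_ h7
        norm_num
      have h9 : ((d : ℝ) + 1) * 5 ≤ η / 2 * y := by
        have h10 : 10 * c ≤ η * (z + 1) := by
          rw [div_le_iff₀ hη] at hz
          linarith
        have h11 : (0 : ℝ) < z + 1 := by linarith
        have h12 : ((d : ℝ) + 1) * 5 * (z + 1) ≤ η / 2 * y * (z + 1) := by
          calc ((d : ℝ) + 1) * 5 * (z + 1) = 5 * (((d : ℝ) + 1) * (z + 1)) := by ring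
            _ ≤ 5 * (c * y) := by gcongr
            _ = 10 * c * (y / 2) := by ring
            _ ≤ η * (z + 1) * (y / 2) := by gcongr
            _ = η / 2 * y * (z + 1) := by ring
        exact le_of_mul_le_mul_right h12 h11
      have h13 : ((d : ℝ) + 1) * Real.log 120 ≤ ((d : ℝ) + 1) * 5 := by gcongr
      have e2 : Real.log x * η = η / 2 * y + η / 2 * y := by rw [hy]; ring
      rw [e2]
      linarith
    calc (72 * 24 ^ d * 5 ^ (d + 1) + 2) * x ^ c ≤ x ^ η * x ^ c := by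
          gcongr
          exact h1.trans h5
      _ = x ^ (c + η) := by rw [← Real.rpow_add hx0, add_comm]

/-- sets with large total influence and circuits, uniformly in the depth -/
theorem circuits_depth {P : ℕ → Prop} (hP : Large P) {c : ℝ} (hc0 : 0 < c) (hc : c < 1 / 2) :
    ∃ᶠ k : ℕ in atTop, ∀ d : ℕ, ((d : ℝ) + 1) * (Real.log (Real.log k) + 1) ≤ c * Real.log k →
      ∀ C : Circuit (Fin k), C.depth ≤ d + 2 → (C.size : ℝ) ≤ Real.exp ((k : ℝ) ^ (c / ((d : ℝ) + 1))) →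
      (2 : ℝ) ^ k / (k : ℝ) ^ (1 - c) < ∑ n ∈ range (2 ^ k), ne' (P n) (C.eval (bits k n) = true) := by
  set η : ℝ := (1 / 2 - c) / 2 with hη
  have hη0 : 0 < η := by rw [hη]; linarith
  have hfreq : ∃ᶠ k : ℕ in atTop, ¬ (TI P k ≤ 2 ^ k * (k : ℝ) ^ (1 / 2 - η)) := by
    intro h
    apply hP η hη0
    filter_upwards [h] with k hk
    exact not_not.1 hk
  have hev := tendsto_natCast_atTop_atTop.eventually (ev_depth hη0 hc0)
  refine (hfreq.and_eventually hev).mono ?_
  rintro k ⟨hk, y1, y2, y3, y4⟩ d hd C hCd hCs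
  by_contra hcon
  rw [not_lt] at hcon
  apply hk
  set x : ℝ := (k : ℝ) with hx
  have hx0 : 0 < x := by linarith
  obtain ⟨x2, x3⟩ := depth_num hη0 hc0 (by linarith) y1 y2 y3 y4 hd
  have e0 : c + η = 1 / 2 - η := by rw [hη]; ring
  rw [e0] at x3
  set D : ℝ := (d : ℝ) + 1 with hD
  have hD1 : 1 ≤ D := by rw [hD]; linarith [(Nat.cast_nonneg d : (0 : ℝ) ≤ d)]
  set β : ℝ := c / D with hβ
  have hβ0 : 0 < β := by positivity
  have hxβ : 0 < x ^ β := Real.rpow_pos_of_pos hx0 _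
  have l2 := Real.log_two_gt_d9
  have hxβ1 : 1 ≤ x ^ β := Real.one_le_rpow (by linarith) hβ0.le
  set s : ℕ := ⌈4 * x ^ β⌉₊ with hs
  have hs1 : (1 : ℝ) ≤ s := by
    have := Nat.le_ceil (4 * x ^ β)
    linarith
  have hs2 : (s : ℝ) ≤ 5 * x ^ β := by
    have := Nat.ceil_lt_add_one (show 0 ≤ 4 * x ^ β by positivity)
    linarith
  have hs3 : 4 * x ^ β ≤ s := Nat.le_ceil _
  have hsz : Fintype.card (Fin k) * ((d + 1) * C.size) ≤ 2 ^ (s + 1) := by
    rw [Fintype.card_fin]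
    have h1 : (k : ℝ) * (((d : ℝ) + 1) * C.size) ≤ 2 ^ (s + 1) := by
      have e2 : (2 : ℝ) ^ (s + 1) = Real.exp (((s : ℝ) + 1) * Real.log 2) := by
        rw [mul_comm, Real.exp_mul, Real.exp_log (by norm_num)]
        norm_cast
      rw [e2]
      calc (k : ℝ) * (((d : ℝ) + 1) * C.size) = (x * D) * C.size := by rw [hx, hD]; ring
        _ ≤ Real.exp (1 * x ^ β) * Real.exp (x ^ β) := by gcongr
        _ = Real.exp (2 * x ^ β) := by rw [← Real.exp_add]; ring_nf
        _ ≤ _ := by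
            apply Real.exp_le_exp.2
            nlinarith
    exact_mod_cast h1
  have h1 := circ_TS C hCd (by exact_mod_cast hs1) hsz
  rw [Fintype.card_fin] at h1
  have h2k : (0 : ℝ) < 2 ^ k := by positivity
  rw [div_le_iff₀ h2k] at h1
  have h2 := TI_approx P (fun M => C.eval (bits k M) = true) k
  have h3 := TI_le_TS C.eval
  have h4 : (s : ℝ) ^ (d + 1) ≤ 5 ^ (d + 1) * x ^ c := by
    calc (s : ℝ) ^ (d + 1) ≤ (5 * x ^ β) ^ (d + 1) := pow_le_pow_left₀ (by positivity) hs2 _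
      _ = 5 ^ (d + 1) * x ^ c := by
          rw [mul_pow]
          congr 1
          rw [← Real.rpow_natCast, ← Real.rpow_mul hx0.le]
          congr 1
          rw [hβ, hD]
          push_cast
          field_simp
  have h5 : 2 * (k : ℝ) * ∑ M ∈ range (2 ^ k), ne' (P M) (C.eval (bits k M) = true) ≤ 2 * x ^ c * 2 ^ k := by
    calc 2 * (k : ℝ) * ∑ M ∈ range (2 ^ k), ne' (P M) (C.eval (bits k M) = true) ≤ 2 * x * (2 ^ k / x ^ (1 - c)) := by
          gcongr
      _ = 2 * x ^ c * 2 ^ k := by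
          have e3 : x = x ^ c * x ^ (1 - c) := by
            rw [← Real.rpow_add hx0]
            have : c + (1 - c) = 1 := by ring
            rw [this, Real.rpow_one]
          have e4 : 0 < x ^ (1 - c) := Real.rpow_pos_of_pos hx0 _
          rw [mul_div_assoc', div_eq_iff e4.ne']
          calc 2 * x * 2 ^ k = 2 * (x ^ c * x ^ (1 - c)) * 2 ^ k := by rw [← e3]
            _ = _ := by ring
  calc TI P k ≤ TI (fun M => C.eval (bits k M) = true) k +
        2 * k * ∑ M ∈ range (2 ^ k), ne' (P M) (C.eval (bits k M) = true) := h2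
    _ ≤ 72 * 24 ^ d * (5 ^ (d + 1) * x ^ c) * 2 ^ k + 2 * x ^ c * 2 ^ k := by
        refine add_le_add (h3.trans (h1.trans ?_)) h5
        gcongr
    _ = 2 ^ k * ((72 * 24 ^ d * 5 ^ (d + 1) + 2) * x ^ c) := by ring
    _ ≤ 2 ^ k * x ^ (1 / 2 - η) := by gcongr

/-- the circuits, with the depth at most about `c log k / log log k` -/
theorem large_depth {S : Set ℕ} (hS : Large (fun n => n ∈ S)) {c : ℝ} (hc0 : 0 < c) (hc : c < 1 / 2) :
    ∃ᶠ k : ℕ in atTop, ∀ D : ℕ, 2 ≤ D → ((D : ℝ) - 1) * (Real.log (Real.log k) + 1) ≤ c * Real.log k →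
      ∀ Γ : Circuit (Fin k), Γ.depth ≤ D → (Γ.size : ℝ) ≤ Real.exp ((k : ℝ) ^ (c / ((D : ℝ) - 1))) →
        (2 : ℝ) ^ k / (k : ℝ) ^ (1 - c) < errs S Γ := by
  refine (circuits_depth hS hc0 hc).mono ?_
  intro k hk D hD hDk Γ hΓ hs
  obtain ⟨d, rfl⟩ : ∃ d, D = d + 2 := ⟨D - 2, by omega⟩
  have e : ((d + 2 : ℕ) : ℝ) - 1 = d + 1 := by push_cast; ring
  rw [e] at hs hDk
  rw [errs_eq]
  exact hk d hDk Γ hΓ hs

/-- small shallow circuits with few errors -/
def Approx (S : Set ℕ) : Prop :=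
  ∃ c : ℝ, 0 < c ∧ c < 1 / 2 ∧ ∀ᶠ k : ℕ in atTop, ∃ D : ℕ, 2 ≤ D ∧
    ((D : ℝ) - 1) * (Real.log (Real.log k) + 1) ≤ c * Real.log k ∧
    ∃ Γ : Circuit (Fin k), Γ.depth ≤ D ∧ (Γ.size : ℝ) ≤ Real.exp ((k : ℝ) ^ (c / ((D : ℝ) - 1))) ∧
      (errs S Γ : ℝ) ≤ (2 : ℝ) ^ k / (k : ℝ) ^ (1 - c)

theorem Large.not_approx {S : Set ℕ} (hS : Large (fun n => n ∈ S)) : ¬ Approx S := by
  rintro ⟨c, hc0, hc, h⟩
  obtain ⟨k, hk1, D, hD, hDk, Γ, g1, g2, g3⟩ := ((large_depth hS hc0 hc).and_eventually h).exists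
  exact absurd (hk1 D hD hDk Γ g1 g2) (not_lt.2 g3)

/-- circuits of polynomial size and of depth at most `a log k / log log k`, `a < 1 / 2` -/
def Poly (S : Set ℕ) : Prop :=
  ∃ (A : ℕ) (a : ℝ), a < 1 / 2 ∧ ∀ᶠ k : ℕ in atTop, ∃ Γ : Circuit (Fin k), Γ.size ≤ k ^ A ∧
    (Γ.depth : ℝ) ≤ a * (Real.log k / Real.log (Real.log k)) ∧
    ∀ n, 1 ≤ n → n < 2 ^ k → (Γ.eval (fun i => n.testBit i) = true ↔ n ∈ S)

theorem ev_ll (C : ℝ) {ε : ℝ} (hε : 0 < ε) : ∀ᶠ x : ℝ in atTop, 1 ≤ x ∧ 1 ≤ Real.log x ∧ 1 ≤ Real.log (Real.log x) ∧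
    C ≤ ε * Real.log (Real.log x) ∧ C * Real.log (Real.log x) ≤ Real.log x := by
  have h1 : Tendsto (fun x : ℝ => Real.log (Real.log x)) atTop atTop :=
    Real.tendsto_log_atTop.comp Real.tendsto_log_atTop
  have h2 : Tendsto (fun x : ℝ => ε * Real.log (Real.log x)) atTop atTop := h1.const_mul_atTop hε
  have h3 : ∀ᶠ y : ℝ in atTop, C * Real.log y ≤ y := by
    have h4 := Real.isLittleO_log_id_atTop.bound (show (0 : ℝ) < 1 / (|C| + 1) by positivity)
    filter_upwards [h4, eventually_ge_atTop 1] with y h5 h6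
    rw [Real.norm_eq_abs, Real.norm_eq_abs, id, abs_of_nonneg (Real.log_nonneg h6),
      abs_of_nonneg (show (0 : ℝ) ≤ y by linarith), div_mul_eq_mul_div, one_mul,
      le_div_iff₀ (show (0 : ℝ) < |C| + 1 by positivity)] at h5
    have h7 := le_abs_self C
    have h8 := Real.log_nonneg h6
    nlinarith
  filter_upwards [eventually_ge_atTop 1, Real.tendsto_log_atTop.eventually_ge_atTop 1, h1.eventually_ge_atTop 1,
    h2.eventually_ge_atTop C, Real.tendsto_log_atTop.eventually h3] with x a1 a2 a3 a4 a5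
  exact ⟨a1, a2, a3, a4, a5⟩

theorem Poly.approx {S : Set ℕ} (h : Poly S) : Approx S := by
  obtain ⟨A, a, ha, h⟩ := h
  obtain ⟨c, hc1, hc2, hc3⟩ : ∃ c : ℝ, 1 / 4 ≤ c ∧ c < 1 / 2 ∧ a < c :=
    ⟨max (1 / 4) ((a + 1 / 2) / 2), le_max_left _ _, max_lt (by norm_num) (by linarith),
      lt_of_lt_of_le (by linarith) (le_max_right _ _)⟩
  set a' : ℝ := max a (1 / 8) with ha'
  have haa : a ≤ a' := le_max_left _ _
  have ha8 : 1 / 8 ≤ a' := le_max_right _ _
  have hac : a' < c := max_lt hc3 (by linarith)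
  refine ⟨c, by linarith, hc2, ?_⟩
  have e1 := tendsto_natCast_atTop_atTop.eventually (ev_ll (8 + a' * (1 + Real.log (A + 1))) (show 0 < c - a' by linarith))
  filter_upwards [h, e1] with k hk hk1
  obtain ⟨x1, x2, x3, x4, x5⟩ := hk1
  obtain ⟨Γ, g1, g2, g3⟩ := hk
  set x : ℝ := (k : ℝ) with hx
  set y := Real.log x with hy
  set z := Real.log y with hz
  have hx0 : 0 < x := by linarith
  have hA0 : 0 ≤ Real.log ((A : ℝ) + 1) := Real.log_nonneg (by linarith [(Nat.cast_nonneg A : (0 : ℝ) ≤ A)])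
  set D := max 2 Γ.depth with hD
  have hD2 : 2 ≤ D := le_max_left _ _
  have hDd : (D : ℝ) - 1 ≤ a' * (y / z) := by
    have h1 : (1 : ℝ) ≤ a' * (y / z) := by
      rw [mul_div_assoc', le_div_iff₀ (by linarith), one_mul]
      have h2 : 8 * z ≤ y := by
        have : 0 ≤ a' * (1 + Real.log ((A : ℝ) + 1)) * z := by
          have : 0 ≤ a' := by linarith
          positivity
        linarith
      nlinarith
    rcases le_total 2 Γ.depth with h2 | h2
    · rw [hD, max_eq_right h2]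
      have h3 : a * (y / z) ≤ a' * (y / z) := by gcongr
      linarith
    · rw [hD, max_eq_left h2]
      push_cast
      linarith
  have hD1 : (1 : ℝ) ≤ (D : ℝ) - 1 := by
    have : (2 : ℝ) ≤ D := by exact_mod_cast hD2
    linarith
  have key : ∀ B : ℝ, 0 ≤ B → a' * B ≤ (c - a') * z → ((D : ℝ) - 1) * (z + B) ≤ c * y := by
    intro B hB h1
    have hz0 : 0 < z := by linarith
    calc ((D : ℝ) - 1) * (z + B) ≤ a' * (y / z) * (z + B) := by gcongr
      _ = y / z * (a' * z + a' * B) := by ring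
      _ ≤ y / z * (c * z) := by
          gcongr
          linarith
      _ = c * y := by field_simp
  have hk1 : a' * 1 ≤ (c - a') * z := by
    have : 0 ≤ a' * Real.log ((A : ℝ) + 1) := by
      have : 0 ≤ a' := by linarith
      positivity
    linarith
  have hk2 : a' * Real.log ((A : ℝ) + 1) ≤ (c - a') * z := by linarith
  refine ⟨D, hD2, key 1 (by norm_num) hk1, Γ, le_max_right _ _, ?_, ?_⟩
  · have h1 : (Γ.size : ℝ) ≤ Real.exp (A * y) := by
      have h2 : (Γ.size : ℝ) ≤ x ^ A := by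
        rw [hx]
        exact_mod_cast g1
      refine h2.trans (le_of_eq ?_)
      rw [mul_comm, Real.exp_mul, hy, Real.exp_log hx0, Real.rpow_natCast]
    refine h1.trans (Real.exp_le_exp.2 ?_)
    rw [Real.rpow_def_of_pos hx0, ← hy]
    have h3 := key _ hA0 hk2
    have h4 : z + Real.log ((A : ℝ) + 1) ≤ y * (c / ((D : ℝ) - 1)) := by
      rw [mul_div_assoc', le_div_iff₀ (by linarith)]
      linarith
    have hA1 : (0 : ℝ) < (A : ℝ) + 1 := by positivity
    calc (A : ℝ) * y ≤ ((A : ℝ) + 1) * y := by nlinarith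
      _ = Real.exp (z + Real.log ((A : ℝ) + 1)) := by
          rw [Real.exp_add, hz, Real.exp_log (by linarith), Real.exp_log hA1, mul_comm]
      _ ≤ _ := Real.exp_le_exp.2 h4
  · have h1 : errs S Γ ≤ 1 := by
      unfold errs
      refine le_trans (Set.ncard_le_ncard (t := {0}) ?_ (Set.finite_singleton 0)) (by simp)
      rintro n ⟨h1, h2⟩
      rw [Set.mem_singleton_iff]
      by_contra h0
      exact h2 (g3 n (by omega) h1)
    have h2 : (errs S Γ : ℝ) ≤ 1 := by exact_mod_cast h1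
    refine h2.trans ?_
    rw [one_le_div (by positivity)]
    calc x ^ (1 - c) ≤ x ^ (1 : ℝ) := Real.rpow_le_rpow_of_exponent_le x1 (by linarith)
      _ = k := Real.rpow_one _
      _ ≤ 2 ^ k := by exact_mod_cast Nat.lt_two_pow_self.le

theorem AC0.poly {S : Set ℕ} (h : AC0 S) : Poly S := by
  obtain ⟨D, A, h⟩ := h
  refine ⟨A, 1 / 4, by norm_num, ?_⟩
  have e1 := tendsto_natCast_atTop_atTop.eventually (ev_ll (4 * D) (show (0 : ℝ) < 1 by norm_num))
  filter_upwards [e1, eventually_ge_atTop 1] with k hk hk1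
  obtain ⟨x1, x2, x3, x4, x5⟩ := hk
  obtain ⟨Γ, g1, g2, g3⟩ := h k hk1
  refine ⟨Γ, g2, ?_, g3⟩
  rw [mul_div_assoc', le_div_iff₀ (by linarith)]
  have h1 : (Γ.depth : ℝ) ≤ D := by exact_mod_cast g1
  have h2 : (Γ.depth : ℝ) * Real.log (Real.log k) ≤ D * Real.log (Real.log k) := by gcongr
  linarith

/-- a set which is easy, or has large total influence -/
theorem tfae_of {S : Set ℕ} {p : Prop} (h1 : p → AC0 S) (h2 : ¬ p → Large (fun n => n ∈ S)) :
    List.TFAE [p, AC0 S, Poly S, Approx S] := by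
  tfae_have 1 → 2 := h1
  tfae_have 2 → 3 := AC0.poly
  tfae_have 3 → 4 := Poly.approx
  tfae_have 4 → 1 := fun h => by
    by_contra hp
    exact (h2 hp).not_approx h
  tfae_finish

end Pool.Agent.H620.Inf2
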