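import Pool.Agent.H620.Inf2.Param
import Pool.Agent.H620.Inf.Final
import Pool.Agent.H620.Inf.Circ3

/-! The total influence of the sets of an invariant family, and circuits. -/

set_option autoImplicit false

namespace Pool.Agent.H620.Inf2

open Finset Filter Topology
open Pool.Agent.H620.Inf (TI Str ne' bits stage' circ_TS TI_approx TI_le_TS ev_exp ev_pow)
open DomAC0 H568R2 Pool.Agent.TH163.AC3

theorem str_all {d : ℤ} (hd : Sg d) {η : ℝ} (hη : 0 < η) (hη1 : η ≤ 1 / 2) : ∃ A₀ : ℝ, 1 ≤ A₀ ∧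
    ∀ {A : Type} [AddCommMonoid A] {α β : A} {n₀ : ℕ} {R : A → ℤ → Prop}, Fam d α β n₀ R → ∀ (s : A) {Q : ℕ}, 0 < Q →
    (∀ (a t : A) (x : ℤ), R (t + Q • a) x ↔ R t x) →
    (∀ᶠ k : ℕ in atTop, TI (fun n : ℕ => R s (n : ℤ)) k ≤ 2 ^ k * (k : ℝ) ^ (1 / 2 - η)) →
    ∀ᶠ k : ℕ in atTop, Str (R s) A₀ (η / 8) k := by
  set δ := η / 8 with hδd
  have hδ : 0 < δ := by positivity
  have hδ1 : δ ≤ 1 / 16 := by rw [hδd]; linarith
  obtain ⟨κ₀, C₀, hκ₀, hC₀, hsc⟩ := scale hd ⌈3 / δ⌉₊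
  obtain ⟨C₁, hC₁, hco⟩ := Pool.Agent.H620.Inf.coal_num
  obtain ⟨c₂, hc₂, hty⟩ := typq
  have hB : 3 ≤ δ * (⌈3 / δ⌉₊ : ℕ) := by
    have := Nat.le_ceil (3 / δ)
    rw [div_le_iff₀ hδ] at this
    linarith
  refine ⟨50 * C₀ + 3000, by linarith, fun {A} _ {α β n₀ R} hR s {Q} hQ hper hTI => ?_⟩
  have h1 := tendsto_natCast_atTop_atTop.eventually (ev_all (κ₀ := κ₀) (C₁ := C₁) (c₂ := c₂) (Q := (Q : ℝ))
    (N := (n₀ : ℝ)) hδ hδ1)
  filter_upwards [h1, hTI] with k hk hT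
  obtain ⟨x1, x2, xQ, x3, x4, x5, x6, x8, x9⟩ := hk
  have e : (1 : ℝ) / 2 - 8 * δ = 1 / 2 - η := by rw [hδd]; ring
  exact str_k hd hδ hδ1 hκ₀ hC₀ hC₁ hc₂ hB hco hty hsc hR s hQ hper x1 x2 xQ x3 x4 x5 x6 x8 x9 (by rw [e]; exact hT)

/-- **The total influence of a set of an invariant family**, if its density is neither `0` nor `1`. -/
theorem influence_fam {d : ℤ} (hd : Sg d) {A : Type} [AddCommMonoid A] {α β : A} {n₀ : ℕ} {R : A → ℤ → Prop}
    (hR : Fam d α β n₀ R) (s : A) {Q : ℕ} (hQ : 0 < Q) (hper : ∀ (a t : A) (x : ℤ), R (t + Q • a) x ↔ R t x)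
    {l : ℝ} (hl0 : 0 < l) (hl1 : l < 1)
    (hl : Tendsto (fun N : ℕ => ({n : ℕ | 1 ≤ n ∧ n ≤ N ∧ R s (n : ℤ)}.ncard : ℝ) / N) atTop (𝓝 l))
    {η : ℝ} (hη : 0 < η)
    (h : ∀ᶠ k : ℕ in atTop, TI (fun n : ℕ => R s (n : ℤ)) k ≤ 2 ^ k * (k : ℝ) ^ (1 / 2 - η)) : False := by
  set η' := min η (1 / 2) with hη'
  have hη'0 : 0 < η' := lt_min hη (by norm_num)
  have hη'1 : η' ≤ 1 / 2 := min_le_right _ _
  obtain ⟨A₀, hA, hstr⟩ := str_all hd hη'0 hη'1
  have h1 : ∀ᶠ k : ℕ in atTop, Str (R s) A₀ (η' / 8) k := by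
    apply hstr hR s hQ hper
    filter_upwards [h, eventually_ge_atTop 1] with k hk hk1
    refine hk.trans ?_
    apply mul_le_mul_of_nonneg_left _ (by positivity)
    apply Real.rpow_le_rpow_of_exponent_le (by exact_mod_cast hk1)
    have := min_le_left η (1 / 2)
    linarith
  obtain ⟨L₁, hL₁, hst⟩ := stage' hη'0 hη'1 hA h1
  refine Pool.Agent.H620.Gen.contraG (P := fun n : ℕ => R s (n : ℤ)) hl0 hl1 hl ?_
  intro ε hε L₂
  exact Pool.Agent.H620.Gen.multiLog (A := 50 * A₀ * (2 / (η' / 8)) ^ 2) (c := 1) (θ := 79 / 80) (θ' := 1 / 2)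
    (by positivity) hL₁ (by norm_num) (by norm_num) (by norm_num) (by norm_num) hst ε hε L₂

/-- sets of large total influence and circuits of constant depth -/
theorem circuits_of {P : ℕ → Prop} (hinf : ∀ η : ℝ, 0 < η → ¬ ∀ᶠ k : ℕ in atTop, TI P k ≤ 2 ^ k * (k : ℝ) ^ (1 / 2 - η))
    {c : ℝ} (hc0 : 0 < c) (hc : c < 1 / 2) (d : ℕ) :
    ∃ᶠ k : ℕ in atTop, ∀ C : Circuit (Fin k), C.depth ≤ d + 2 → (C.size : ℝ) ≤ Real.exp ((k : ℝ) ^ (c / (d + 1))) →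
      (2 : ℝ) ^ k / (k : ℝ) ^ (1 - c) < ∑ n ∈ range (2 ^ k), ne' (P n) (C.eval (bits k n) = true) := by
  set η : ℝ := (1 / 2 - c) / 2 with hη
  have hη0 : 0 < η := by rw [hη]; linarith
  have hfreq : ∃ᶠ k : ℕ in atTop, ¬ (TI P k ≤ 2 ^ k * (k : ℝ) ^ (1 / 2 - η)) := by
    intro h
    apply hinf η hη0
    filter_upwards [h] with k hk
    exact not_not.1 hk
  set D : ℝ := (d : ℝ) + 1 with hD
  have hD1 : 1 ≤ D := by rw [hD]; linarith [(Nat.cast_nonneg d : (0 : ℝ) ≤ d)]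
  set β : ℝ := c / D with hβ
  have hβ0 : 0 < β := by positivity
  -- large `k`
  have hev : ∀ᶠ x : ℝ in atTop, 1 ≤ x ∧ x * D ≤ Real.exp (1 * x ^ β) ∧
      (72 * 24 ^ d * 5 ^ (d + 1) + 2) * x ^ c ≤ x ^ (1 / 2 - η) := by
    have h1 := ev_exp 2 hβ0 (show (0 : ℝ) < 1 by norm_num)
    have h2 := ev_pow (72 * 24 ^ d * 5 ^ (d + 1) + 2) (show c < 1 / 2 - η by rw [hη]; linarith)
    filter_upwards [h1, h2, eventually_ge_atTop (max 1 D)] with x a1 a2 a3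
    have hx1 : 1 ≤ x := (le_max_left _ _).trans a3
    have hxD : D ≤ x := (le_max_right _ _).trans a3
    refine ⟨hx1, ?_, a2⟩
    refine le_trans ?_ a1
    have e : x ^ (2 : ℝ) = x * x := by
      have : x ^ (2 : ℝ) = x ^ 2 := by norm_cast
      rw [this]; ring
    rw [e]
    gcongr
  have hev' := tendsto_natCast_atTop_atTop.eventually hev
  refine (hfreq.and_eventually hev').mono ?_
  rintro k ⟨hk, x1, x2, x3⟩ C hCd hCs
  by_contra hcon
  rw [not_lt] at hcon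
  apply hk
  set x : ℝ := (k : ℝ) with hx
  have hx0 : 0 < x := by linarith
  have hxβ : 0 < x ^ β := Real.rpow_pos_of_pos hx0 _
  have l2 := Real.log_two_gt_d9
  have hxβ1 : 1 ≤ x ^ β := Real.one_le_rpow x1 hβ0.le
  set s : ℕ := ⌈4 * x ^ β⌉₊ with hs
  have hs1 : (1 : ℝ) ≤ s := by
    have := Nat.le_ceil (4 * x ^ β)
    linarith
  have hs2 : (s : ℝ) ≤ 5 * x ^ β := by
    have := Nat.ceil_lt_add_one (show 0 ≤ 4 * x ^ β by positivity)
    linarith
  have hs3 : 4 * x ^ β ≤ s := Nat.le_ceil _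
  have hsz : Fintype.card (Fin k) * ((d + 1) * C.size) ≤ 2 ^ (s + 1) := by
    rw [Fintype.card_fin]
    have h1 : (k : ℝ) * (((d : ℝ) + 1) * C.size) ≤ 2 ^ (s + 1) := by
      have e2 : (2 : ℝ) ^ (s + 1) = Real.exp (((s : ℝ) + 1) * Real.log 2) := by
        rw [mul_comm, Real.exp_mul, Real.exp_log (by norm_num)]
        norm_cast
      rw [e2]
      calc (k : ℝ) * (((d : ℝ) + 1) * C.size) = (x * D) * C.size := by rw [hx, hD]; ring
        _ ≤ Real.exp (1 * x ^ β) * Real.exp (x ^ β) := by gcongr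
        _ = Real.exp (2 * x ^ β) := by rw [← Real.exp_add]; ring_nf
        _ ≤ _ := by
            apply Real.exp_le_exp.2
            nlinarith
    exact_mod_cast h1
  have h1 := circ_TS C hCd (by exact_mod_cast hs1) hsz
  rw [Fintype.card_fin] at h1
  have h2k : (0 : ℝ) < 2 ^ k := by positivity
  rw [div_le_iff₀ h2k] at h1
  have h2 := TI_approx P (fun M => C.eval (bits k M) = true) k
  have h3 := TI_le_TS C.eval
  have h4 : (s : ℝ) ^ (d + 1) ≤ 5 ^ (d + 1) * x ^ c := by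
    calc (s : ℝ) ^ (d + 1) ≤ (5 * x ^ β) ^ (d + 1) := pow_le_pow_left₀ (by positivity) hs2 _
      _ = 5 ^ (d + 1) * x ^ c := by
          rw [mul_pow]
          congr 1
          rw [← Real.rpow_natCast, ← Real.rpow_mul hx0.le]
          congr 1
          rw [hβ, hD]
          push_cast
          field_simp
  have h5 : 2 * (k : ℝ) * ∑ M ∈ range (2 ^ k), ne' (P M) (C.eval (bits k M) = true) ≤ 2 * x ^ c * 2 ^ k := by
    calc 2 * (k : ℝ) * ∑ M ∈ range (2 ^ k), ne' (P M) (C.eval (bits k M) = true) ≤ 2 * x * (2 ^ k / x ^ (1 - c)) := by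
          gcongr
      _ = 2 * x ^ c * 2 ^ k := by
          have e3 : x = x ^ c * x ^ (1 - c) := by
            rw [← Real.rpow_add hx0]
            have : c + (1 - c) = 1 := by ring
            rw [this, Real.rpow_one]
          have e4 : 0 < x ^ (1 - c) := Real.rpow_pos_of_pos hx0 _
          rw [mul_div_assoc', div_eq_iff e4.ne']
          calc 2 * x * 2 ^ k = 2 * (x ^ c * x ^ (1 - c)) * 2 ^ k := by rw [← e3]
            _ = _ := by ring
  calc TI P k ≤ TI (fun M => C.eval (bits k M) = true) k +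
        2 * k * ∑ M ∈ range (2 ^ k), ne' (P M) (C.eval (bits k M) = true) := h2
    _ ≤ 72 * 24 ^ d * (5 ^ (d + 1) * x ^ c) * 2 ^ k + 2 * x ^ c * 2 ^ k := by
        refine add_le_add (h3.trans (h1.trans ?_)) h5
        gcongr
    _ = 2 ^ k * ((72 * 24 ^ d * 5 ^ (d + 1) + 2) * x ^ c) := by ring
    _ ≤ 2 ^ k * x ^ (1 / 2 - η) := by gcongr

end Pool.Agent.H620.Inf2
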