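import Pool.Agent.H620.Inf2.Coal
import Pool.Agent.H620.Inf.Chain

/-! The model: every value of a class modulo `3 ^ μ` in the window has the same weight. -/

set_option autoImplicit false

namespace Pool.Agent.H620.Inf2

open Finset
open Pool.Agent.Q74.BH (cl SE cn)
open Pool.Agent.TH930.EBQ (ones wd words cw T sum_wd)
open Pool.Agent.Q158.Col4 (cI cI_bounds)
open Pool.Agent.H620.Inf (ind ind_nonneg ind_le_one ind_true ind_false ind_mono ind_or ind_split ind_compl ne'_eq_ind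
  card_eq_ind cn_mem nq nq_nonneg nq_le_one upC)

variable {d : ℤ}

/-- the model -/
noncomputable def mm (d : ℤ) (μ J : ℕ) (e : ℕ → ℕ → ℕ → Prop) : ℝ := ∑ v ∈ words J, nq e μ (ones v) (cd d μ v)

theorem mm_nonneg (d : ℤ) (μ J : ℕ) (e : ℕ → ℕ → ℕ → Prop) : 0 ≤ mm d μ J e := sum_nonneg fun _ _ => nq_nonneg _ _ _ _

theorem mm_le (d : ℤ) (μ J : ℕ) (e : ℕ → ℕ → ℕ → Prop) : mm d μ J e ≤ 2 ^ J := by
  unfold mm
  refine (sum_le_sum fun v _ => nq_le_one _ _ _ _).trans ?_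
  rw [sum_const, Pool.Agent.TH930.EBQ.card_words, nsmul_eq_mul, mul_one]
  push_cast
  exact le_rfl

theorem T_neg (d x : ℤ) (hd : Sg d) : T 1 (d * x) = d * T d x := by
  unfold T
  rcases hd with rfl | rfl
  · simp
  · split_ifs <;> omega

theorem iter_neg (hd : Sg d) (n : ℕ) : ∀ x : ℤ, (T 1)^[n] (d * x) = d * (T d)^[n] x := by
  induction n with
  | zero => intro x; rfl
  | succ n ih =>
    intro x
    rw [Function.iterate_succ_apply, T_neg d x hd, ih, Function.iterate_succ_apply]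

theorem wd_neg (hd : Sg d) (n : ℕ) : ∀ x : ℤ, wd 1 n (d * x) = wd d n x := by
  induction n with
  | zero => intro x; rfl
  | succ n ih =>
    intro x
    simp only [wd]
    rw [T_neg d x hd, ih]
    congr 1
    have : (d * x) % 2 = x % 2 := by rcases hd with rfl | rfl <;> omega
    rw [this]

theorem transfer (hd : Sg d) (B : ℕ) : ∃ κ C : ℝ, 0 < κ ∧ 0 < C ∧ ∀ J μ : ℕ, 1 ≤ J → 1 ≤ μ → (μ : ℝ) ^ 2 ≤ κ * J →
    ∀ (U : ℕ) (e : ℕ → ℕ → ℕ → Prop) (m : ℕ), (m : ℝ) ^ 2 ≤ κ * J → ∀ r₀ : ℤ,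
    ∑ L ∈ range (2 ^ J), ind ((3 : ℤ) ^ m ∣ ((2 ^ J * U + L : ℕ) : ℤ) - r₀ ∧ μ ≤ aw d J L ∧
      e (aw d J L) (cv d J L / 3 ^ μ) (cv d J L % 3 ^ μ)) ≤
      2 ^ J / 3 ^ m * (mm d μ J e / 2 ^ J + C * J ^ 2 / (μ : ℝ) ^ B) := by
  classical
  have hc1 : 3 / 2 < cI := by
    obtain ⟨h1, h2⟩ := Pool.Agent.Q158.Col4.log43_bounds
    unfold cI
    rw [lt_div_iff₀ (by linarith)]
    linarith
  obtain ⟨κ, C, hκ, hκ1, hC, h⟩ := upC hc1 B
  have l2 := Real.log_two_gt_d9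
  have l2' := Real.log_two_lt_d9
  refine ⟨κ * Real.log 2, C, by positivity, hC, fun J μ hJ hμ hμJ U e m hm r₀ => ?_⟩
  have hJr : (1 : ℝ) ≤ J := by exact_mod_cast hJ
  have hlog : Real.log ((2 ^ J : ℕ) : ℝ) = J * Real.log 2 := by push_cast; rw [Real.log_pow]
  have hH : 2 ≤ 2 ^ J := by
    calc 2 = 2 ^ 1 := by norm_num
      _ ≤ 2 ^ J := Nat.pow_le_pow_right (by norm_num) hJ
  set E : ℕ → Set ℤ := fun o => {z : ℤ | μ ≤ o ∧ ∃ q r : ℕ, q < 3 ^ (o - μ) ∧ r < 3 ^ μ ∧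
    z = d * (3 ^ o * U + (3 ^ μ * q + r)) ∧ e o q r} with hE
  set g : ℕ → ℤ → ℝ := fun o r => nq e μ o ((d * r) % 3 ^ μ).toNat with hg
  set F : Finset ℤ := ((range (2 ^ J)).filter (fun L => (3 : ℤ) ^ m ∣ ((2 ^ J * U + L : ℕ) : ℤ) - r₀ ∧ μ ≤ aw d J L ∧
      e (aw d J L) (cv d J L / 3 ^ μ) (cv d J L % 3 ^ μ))).image (fun L : ℕ => d * ((2 ^ J * U + L : ℕ) : ℤ)) with hF
  have h2J : (2 : ℝ) ^ J ≠ 0 := by positivity
  obtain ⟨a, ha⟩ : ∃ a : ℤ, ∀ L : ℕ, L < 2 ^ J → a ≤ d * ((2 ^ J * U + L : ℕ) : ℤ) ∧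
      d * ((2 ^ J * U + L : ℕ) : ℤ) < a + 2 ^ J := by
    rcases hd with rfl | rfl
    · refine ⟨((2 ^ J * U : ℕ) : ℤ), fun L hL => ?_⟩
      have : (L : ℤ) < 2 ^ J := by exact_mod_cast hL
      push_cast
      constructor <;> omega
    · refine ⟨-((2 ^ J * U : ℕ) : ℤ) - 2 ^ J + 1, fun L hL => ?_⟩
      have : (L : ℤ) < 2 ^ J := by exact_mod_cast hL
      push_cast
      constructor <;> omega
  have hd0 : d ≠ 0 := by rcases hd with rfl | rfl <;> norm_num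
  have hmain := h (2 ^ J) hH a J (by rw [hlog]; nlinarith) (by rw [hlog]; nlinarith) μ hμ
    (by rw [hlog]; linarith) E g (fun o r => ⟨nq_nonneg _ _ _ _, (nq_le_one _ _ _ _).trans (by norm_num)⟩) ?_
    m (by rw [hlog]; linarith) (d * r₀) F ?_
  · have hcard : (F.card : ℝ) = ∑ L ∈ range (2 ^ J), ind ((3 : ℤ) ^ m ∣ ((2 ^ J * U + L : ℕ) : ℤ) - r₀ ∧ μ ≤ aw d J L ∧
        e (aw d J L) (cv d J L / 3 ^ μ) (cv d J L % 3 ^ μ)) := by
      rw [hF, card_image_of_injective, card_eq_ind]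
      intro x y hxy
      simp only at hxy
      have h1 := mul_left_cancel₀ hd0 hxy
      have : 2 ^ J * U + x = 2 ^ J * U + y := by exact_mod_cast h1
      omega
    rw [← hcard]
    refine hmain.trans ?_
    have e1 : ((2 ^ J : ℕ) : ℝ) = 2 ^ J := by push_cast; rfl
    rw [hlog, e1]
    have e2 : ∑ v ∈ words J, g (ones v) (cl μ v) = mm d μ J e := rfl
    rw [e2]
    apply mul_le_mul_of_nonneg_left _ (by positivity)
    have hμ0 : (0 : ℝ) < (μ : ℝ) ^ B := by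
      have : (0 : ℝ) < μ := by exact_mod_cast hμ
      positivity
    have : C * (J * Real.log 2) ^ 2 / (μ : ℝ) ^ B ≤ C * J ^ 2 / (μ : ℝ) ^ B := by
      apply div_le_div_of_nonneg_right _ hμ0.le
      apply mul_le_mul_of_nonneg_left _ hC.le
      rw [mul_pow]
      have : Real.log 2 ^ 2 ≤ 1 := by nlinarith
      nlinarith [sq_nonneg (J : ℝ)]
    linarith
  · intro o r ho hr0 hr1
    obtain ⟨r', hr'e⟩ : ∃ r' : ℕ, (d * r) % 3 ^ μ = r' :=
      ⟨((d * r) % 3 ^ μ).toNat, (Int.toNat_of_nonneg (Int.emod_nonneg _ (by positivity))).symm⟩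
    by_cases hμo : μ ≤ o
    · have hg' : g o r = (∑ q ∈ range (3 ^ (o - μ)), ind (e o q r')) / 3 ^ (o - μ) := by
        rw [hg]
        simp only [hr'e, Int.toNat_natCast]
        unfold nq
        rw [if_pos hμo]
      have e3 : ((2 ^ J : ℕ) : ℝ) * 3 ^ o / 2 ^ J / 3 ^ μ = 3 ^ (o - μ) := by
        have : (3 : ℝ) ^ o = 3 ^ μ * 3 ^ (o - μ) := by rw [← pow_add]; congr 1; omega
        rw [this]
        push_cast
        field_simp
      rw [hg', e3, div_mul_cancel₀ _ (by positivity), ← card_eq_ind]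
      have hsub : cn (E o) ((a : ℝ) * 3 ^ o / 2 ^ J) (((a : ℝ) + ((2 ^ J : ℕ) : ℝ)) * 3 ^ o / 2 ^ J) μ r ⊆
          ((range (3 ^ (o - μ))).filter (fun q => e o q r')).image
            (fun q : ℕ => d * ((3 : ℤ) ^ o * U + (3 ^ μ * q + r'))) := by
        intro z hz
        obtain ⟨hzE, hzr⟩ := cn_mem hz
        rw [hE] at hzE
        simp only [Set.mem_ofPred_eq] at hzE
        obtain ⟨_, q, ρ, hq, hρ, hzz, he⟩ := hzE
        have e4 : (d * z) % 3 ^ μ = ρ := by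
          rw [hzz, ← mul_assoc, hd.sq, one_mul]
          have e5 : (3 : ℤ) ^ o = 3 ^ μ * 3 ^ (o - μ) := by rw [← pow_add]; congr 1; omega
          have e6 : (3 : ℤ) ^ o * U + (3 ^ μ * q + ρ) = ρ + 3 ^ μ * (3 ^ (o - μ) * U + q) := by rw [e5]; ring
          rw [e6, Int.add_mul_emod_self_left]
          exact Int.emod_eq_of_lt (by positivity) (by exact_mod_cast hρ)
        have e7 : ρ = r' := by
          have : (d * z) % 3 ^ μ = (d * r) % 3 ^ μ := by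
            rw [← hzr, Int.mul_emod, Int.mul_emod d (z % 3 ^ μ), Int.emod_emod_of_dvd _ (dvd_refl _)]
          rw [e4, hr'e] at this
          exact_mod_cast this
        subst e7
        rw [mem_image]
        exact ⟨q, mem_filter.2 ⟨mem_range.2 hq, he⟩, hzz.symm⟩
      exact_mod_cast (card_le_card hsub).trans card_image_le
    · have : cn (E o) ((a : ℝ) * 3 ^ o / 2 ^ J) (((a : ℝ) + ((2 ^ J : ℕ) : ℝ)) * 3 ^ o / 2 ^ J) μ r = ∅ := by
        rw [eq_empty_iff_forall_notMem]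
        intro z hz
        obtain ⟨hzE, _⟩ := cn_mem hz
        rw [hE] at hzE
        simp only [Set.mem_ofPred_eq] at hzE
        exact hμo hzE.1
      rw [this, card_empty]
      have h1 : 0 ≤ g o r := by rw [hg]; exact nq_nonneg _ _ _ _
      push_cast
      positivity
  · intro x hx
    rw [hF, mem_image] at hx
    obtain ⟨L, hL, rfl⟩ := hx
    rw [mem_filter, mem_range] at hL
    obtain ⟨hL, h1, h2, h3⟩ := hL
    obtain ⟨h4, h5⟩ := ha L hL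
    refine ⟨h4, by push_cast at h5 ⊢; exact h5, ?_, ?_⟩
    · unfold SE
      rw [Set.mem_ofPred_eq]
      have e8 : ((2 ^ J * U + L : ℕ) : ℤ) = 2 ^ J * (U : ℤ) + L := by push_cast; ring
      rw [iter_neg hd, wd_neg hd, e8, iter_add hd, wd_add hd, hE]
      simp only [Set.mem_ofPred_eq]
      have e9 : ones (wd d J (L : ℤ)) = aw d J L := rfl
      rw [e9]
      refine ⟨h2, cv d J L / 3 ^ μ, cv d J L % 3 ^ μ, ?_, Nat.mod_lt _ (by positivity), ?_, h3⟩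
      · rw [Nat.div_lt_iff_lt_mul (by positivity), ← pow_add]
        have : aw d J L - μ + μ = aw d J L := by omega
        rw [this]
        exact cv_lt hd hL
      · congr 2
        exact_mod_cast (Nat.div_add_mod (cv d J L) (3 ^ μ)).symm
    · rw [← mul_sub]
      exact Dvd.dvd.mul_left h1 _

/-- the words with few ones -/
theorem mm_add (hd : Sg d) (μ J : ℕ) (e : ℕ → ℕ → ℕ → Prop) :
    mm d μ J e + mm d μ J (fun o q r => ¬ e o q r) = ∑ L ∈ range (2 ^ J), ind (μ ≤ aw d J L) := by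
  unfold mm
  rw [← sum_add_distrib]
  have h := sum_wd hd.odd J (fun v => ind (μ ≤ ones v))
  have e1 : ∑ L ∈ range (2 ^ J), ind (μ ≤ aw d J L) = ∑ v ∈ words J, ind (μ ≤ ones v) := h
  rw [e1]
  apply sum_congr rfl
  intro v _
  unfold nq
  by_cases hv : μ ≤ ones v
  · rw [if_pos hv, if_pos hv, ind_true hv, ← add_div, ← sum_add_distrib]
    simp_rw [ind_compl]
    rw [sum_const, card_range, nsmul_eq_mul, mul_one]
    push_cast
    exact div_self (by positivity)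
  · rw [if_neg hv, if_neg hv, ind_false hv, add_zero]

theorem lower (hd : Sg d) (B : ℕ) : ∃ κ C : ℝ, 0 < κ ∧ 0 < C ∧ (∀ J μ : ℕ, 1 ≤ J → 1 ≤ μ → (μ : ℝ) ^ 2 ≤ κ * J →
    ∀ (U : ℕ) (e : ℕ → ℕ → ℕ → Prop) (m : ℕ), (m : ℝ) ^ 2 ≤ κ * J → ∀ r₀ : ℤ,
    ∑ L ∈ range (2 ^ J), ind ((3 : ℤ) ^ m ∣ ((2 ^ J * U + L : ℕ) : ℤ) - r₀ ∧ μ ≤ aw d J L ∧
      e (aw d J L) (cv d J L / 3 ^ μ) (cv d J L % 3 ^ μ)) ≤
      2 ^ J / 3 ^ m * (mm d μ J e / 2 ^ J + C * J ^ 2 / (μ : ℝ) ^ B)) ∧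
    (∀ J μ : ℕ, 1 ≤ J → 1 ≤ μ → (μ : ℝ) ^ 2 ≤ κ * J → ∀ e : ℕ → ℕ → ℕ → Prop,
    mm d μ J e ≤ ∑ L ∈ range (2 ^ J), ind (μ ≤ aw d J L ∧ e (aw d J L) (cv d J L / 3 ^ μ) (cv d J L % 3 ^ μ)) +
      2 ^ J * (C * J ^ 2 / (μ : ℝ) ^ B)) := by
  obtain ⟨κ, C, hκ, hC, h⟩ := transfer hd B
  refine ⟨κ, C, hκ, hC, h, fun J μ hJ hμ hμJ e => ?_⟩
  have h1 := h J μ hJ hμ hμJ 0 (fun o q r => ¬ e o q r) 0 (by
    have : (0 : ℝ) ≤ κ * J := by positivity
    simpa using this) 0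
  simp only [pow_zero, one_dvd, true_and, div_one] at h1
  have h2 := mm_add hd μ J e
  have h3 : ∑ L ∈ range (2 ^ J), ind (μ ≤ aw d J L ∧ e (aw d J L) (cv d J L / 3 ^ μ) (cv d J L % 3 ^ μ)) +
      ∑ L ∈ range (2 ^ J), ind (μ ≤ aw d J L ∧ ¬ e (aw d J L) (cv d J L / 3 ^ μ) (cv d J L % 3 ^ μ)) =
      ∑ L ∈ range (2 ^ J), ind (μ ≤ aw d J L) := by
    rw [← sum_add_distrib]
    apply sum_congr rfl
    intro L _
    exact ind_split _ _
  have h4 : (2 : ℝ) ^ J * (mm d μ J (fun o q r => ¬ e o q r) / 2 ^ J + C * J ^ 2 / (μ : ℝ) ^ B) =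
      mm d μ J (fun o q r => ¬ e o q r) + 2 ^ J * (C * J ^ 2 / (μ : ℝ) ^ B) := by
    field_simp
  rw [h4] at h1
  linarith

end Pool.Agent.H620.Inf2
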