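import Pool.Agent.H620.Inf2.Tools
import Pool.Graph.R_seed8.H499R2.NDCor

/-! Sets of positive integers which are invariant under the Collatz map. -/

set_option autoImplicit false

namespace Pool.Agent.H620.Inf2

open Finset Filter Topology
open Pool.Agent.H499R2.ND (Tn)
open Pool.Agent.H620.Inf (TI)

/-- The total influence of a nontrivial invariant set of positive integers. -/
theorem nat_large {P : ℕ → Prop} (hP : ∀ n, P n ↔ P (Tn n)) (hex : ∃ n, 1 ≤ n ∧ P n) (hex' : ∃ n, 1 ≤ n ∧ ¬ P n) :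
    Large P := by
  intro η hη h
  obtain ⟨l, hl0, hl1, hl, hlp, hlo⟩ := Pool.Agent.H499R2.ND.nat_density (P := P) (fun n _ => hP n)
  have hl0' : 0 < l := hlp.2 hex
  have hl1' : l < 1 := by
    rcases hl1.lt_or_eq with h | h
    · exact h
    · obtain ⟨n, hn, hn'⟩ := hex'
      exact absurd (hlo.1 h n hn) hn'
  have hR : Fam 1 (0 : ℕ) 0 0 (fun _ x => P x.toNat) := by
    intro t x hx
    obtain ⟨n, rfl⟩ : ∃ n : ℕ, x = n := ⟨x.toNat, by omega⟩
    have e : Pool.Agent.TH930.EBQ.T 1 (n : ℤ) = ((Tn n : ℕ) : ℤ) := by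
      unfold Pool.Agent.TH930.EBQ.T Tn
      split_ifs <;> push_cast <;> omega
    show P ((n : ℤ).toNat) ↔ P ((Pool.Agent.TH930.EBQ.T 1 (n : ℤ)).toNat)
    rw [e, Int.toNat_natCast, Int.toNat_natCast]
    exact hP n
  exact influence_fam (Or.inl rfl) hR (0 : ℕ) (Q := 1) Nat.one_pos (fun _ _ _ => Iff.rfl) hl0' hl1' hl hη h

end Pool.Agent.H620.Inf2
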