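import Pool.Agent.H620.Inf2.Tools

/-! Sets which are invariant under `n ↦ 2 n`: the total influence of the set of the odd elements. -/

set_option autoImplicit false

namespace Pool.Agent.H620.Inf2

open Finset Filter Topology
open Pool.Agent.H620.Inf (TI In ne' ne'_nonneg ne'_le_one ev_pow xor_high xor_low)

theorem sum_parity (f : ℕ → ℝ) (N : ℕ) :
    ∑ n ∈ range (2 * N), f n = ∑ j ∈ range N, f (2 * j) + ∑ j ∈ range N, f (2 * j + 1) := by
  induction N with
  | zero => simp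
  | succ N ih =>
    rw [show 2 * (N + 1) = 2 * N + 1 + 1 by ring, sum_range_succ, sum_range_succ, ih, sum_range_succ, sum_range_succ]
    ring

theorem xor_even (j i : ℕ) : (2 * j) ^^^ 2 ^ (i + 1) = 2 * (j ^^^ 2 ^ i) := by
  have h := xor_high (J := 1) (L := 0) (by norm_num) j i
  rw [add_comm 1 i] at h
  simpa using h

theorem xor_odd (j i : ℕ) : (2 * j + 1) ^^^ 2 ^ (i + 1) = 2 * (j ^^^ 2 ^ i) + 1 := by
  have h := xor_high (J := 1) (L := 1) (by norm_num) j i
  rw [add_comm 1 i] at h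
  simpa using h

theorem TI_succ_le (P : ℕ → Prop) (k : ℕ) :
    TI P (k + 1) ≤ 2 ^ (k + 1) + TI (fun j => P (2 * j)) k + TI (fun j => P (2 * j + 1)) k := by
  have h0 : In P (k + 1) 0 ≤ 2 ^ (k + 1) := by
    unfold In
    calc ∑ M ∈ range (2 ^ (k + 1)), ne' (P M) (P (M ^^^ 2 ^ 0)) ≤ ∑ _M ∈ range (2 ^ (k + 1)), (1 : ℝ) :=
          sum_le_sum fun _ _ => ne'_le_one _ _
      _ = 2 ^ (k + 1) := by rw [sum_const, card_range, nsmul_eq_mul, mul_one]; push_cast; ring
  have h1 : ∀ i, In P (k + 1) (i + 1) = In (fun j => P (2 * j)) k i + In (fun j => P (2 * j + 1)) k i := by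
    intro i
    unfold In
    rw [show 2 ^ (k + 1) = 2 * 2 ^ k by ring, sum_parity]
    congr 1
    · exact sum_congr rfl fun j _ => by rw [xor_even]
    · exact sum_congr rfl fun j _ => by rw [xor_odd]
  unfold TI
  rw [sum_range_succ']
  simp only [h1, sum_add_distrib]
  linarith

/-- the odd elements of a set of large total influence which is invariant under `n ↦ 2 n` -/
theorem odd_large {P : ℕ → Prop} (h2 : ∀ n, P (2 * n) ↔ P n) (hP : Large P) : Large (fun j => P (2 * j + 1)) := by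
  intro η hη h
  set γ : ℝ := max (1 / 2 - η) 0 with hγ
  have hγ0 : 0 ≤ γ := le_max_right _ _
  have hγ1 : γ < 1 / 2 := max_lt (by linarith) (by norm_num)
  apply hP ((1 / 2 - γ) / 2) (by linarith)
  obtain ⟨K, hK⟩ := eventually_atTop.1 (h.and (eventually_ge_atTop 1))
  have hrec : ∀ k, K ≤ k → TI P (k + 1) ≤ 2 ^ (k + 1) + TI P k + 2 ^ k * (k : ℝ) ^ γ := by
    intro k hk
    obtain ⟨a1, a2⟩ := hK k hk
    have h3 := TI_succ_le P k
    have e : (fun j => P (2 * j)) = P := funext fun j => propext (h2 j)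
    rw [e] at h3
    have hk1 : (1 : ℝ) ≤ k := by exact_mod_cast a2
    have h4 : (k : ℝ) ^ (1 / 2 - η) ≤ (k : ℝ) ^ γ := Real.rpow_le_rpow_of_exponent_le hk1 (le_max_left _ _)
    have h5 : (2 : ℝ) ^ k * (k : ℝ) ^ (1 / 2 - η) ≤ 2 ^ k * (k : ℝ) ^ γ := by gcongr
    linarith
  obtain ⟨M, hM2, hMK⟩ : ∃ M : ℝ, 2 ≤ M ∧ TI P K ≤ 2 ^ K * M := by
    refine ⟨max 2 (TI P K / 2 ^ K), le_max_left _ _, ?_⟩
    have h6 : TI P K / 2 ^ K ≤ max 2 (TI P K / 2 ^ K) := le_max_right _ _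
    calc TI P K = 2 ^ K * (TI P K / 2 ^ K) := by field_simp
      _ ≤ _ := by gcongr
  have hind : ∀ k, K ≤ k → TI P k ≤ 2 ^ k * (M + (k : ℝ) ^ γ) := by
    intro k hk
    induction k, hk using Nat.le_induction with
    | base =>
      refine hMK.trans ?_
      have : (0 : ℝ) ≤ (K : ℝ) ^ γ := by positivity
      gcongr
      linarith
    | succ k hk ih =>
      have h7 := hrec k hk
      have h8 : (k : ℝ) ^ γ ≤ ((k + 1 : ℕ) : ℝ) ^ γ := by
        apply Real.rpow_le_rpow (by positivity) _ hγ0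
        push_cast
        linarith
      have h9 : (0 : ℝ) < 2 ^ k := by positivity
      calc TI P (k + 1) ≤ 2 ^ (k + 1) + TI P k + 2 ^ k * (k : ℝ) ^ γ := h7
        _ ≤ 2 ^ (k + 1) + 2 ^ k * (M + (k : ℝ) ^ γ) + 2 ^ k * (k : ℝ) ^ γ := by linarith
        _ = 2 ^ k * (2 + M + 2 * (k : ℝ) ^ γ) := by ring
        _ ≤ 2 ^ k * (2 * (M + ((k + 1 : ℕ) : ℝ) ^ γ)) := by
            apply mul_le_mul_of_nonneg_left _ h9.le
            linarith
        _ = 2 ^ (k + 1) * (M + ((k + 1 : ℕ) : ℝ) ^ γ) := by ring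
  have e1 := tendsto_natCast_atTop_atTop.eventually (ev_pow 2 (show γ < 1 / 2 - (1 / 2 - γ) / 2 by linarith))
  have e2 := tendsto_natCast_atTop_atTop.eventually
    (ev_pow (2 * M) (show (0 : ℝ) < 1 / 2 - (1 / 2 - γ) / 2 by linarith))
  filter_upwards [e1, e2, eventually_ge_atTop K] with k b1 b2 b3
  rw [Real.rpow_zero, mul_one] at b2
  have h10 := hind k b3
  refine h10.trans ?_
  gcongr
  linarith

end Pool.Agent.H620.Inf2
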