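import Pool.Agent.H620.Inf.Binom
import Pool.Graph.R_seed8.H499R2.LT.D1

/-! Typical numbers of odd steps, with the lower end divisible by `q`. -/

set_option autoImplicit false

namespace Pool.Agent.H620.Inf2

open Finset
open Pool.Agent.TH930.EBQ (ones wd words cw T sum_wd card_words)
open Pool.Agent.H620.Inf (ind ind_nonneg ind_le_one ind_true ind_false ind_mono ind_or card_ones typ)

theorem count_Ico {c : ℝ} (hc : ∀ n : ℕ, 1 ≤ n → ∀ j : ℕ, (n.choose j : ℝ) / 2 ^ n ≤ c / Real.sqrt n)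
    {J : ℕ} (hJ : 1 ≤ J) (a q : ℕ) :
    ∑ v ∈ words J, ind (a ≤ ones v ∧ ones v < a + q) ≤ 2 ^ J * (q * (c / Real.sqrt J)) := by
  have h1 : ∀ v ∈ words J, ind (a ≤ ones v ∧ ones v < a + q) ≤ ∑ o ∈ Ico a (a + q), (if ones v = o then (1 : ℝ) else 0) := by
    intro v _
    by_cases h : a ≤ ones v ∧ ones v < a + q
    · rw [ind_true h, sum_ite_eq, if_pos (mem_Ico.2 h)]
    · rw [ind_false h]
      exact sum_nonneg fun _ _ => by split_ifs <;> norm_num
  refine (sum_le_sum h1).trans ?_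
  rw [sum_comm]
  have h2 : ∀ o ∈ Ico a (a + q), ∑ v ∈ words J, (if ones v = o then (1 : ℝ) else 0) ≤ 2 ^ J * (c / Real.sqrt J) := by
    intro o _
    have h3 : ∑ v ∈ words J, (if ones v = o then (1 : ℝ) else 0) = J.choose o := by
      exact_mod_cast card_ones J o
    rw [h3]
    have h4 := hc J hJ o
    rw [div_le_iff₀ (by positivity)] at h4
    linarith
  refine (sum_le_sum h2).trans ?_
  rw [sum_const, Nat.card_Ico, nsmul_eq_mul, Nat.add_sub_cancel_left]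
  apply le_of_eq
  ring

/-- typical levels -/
theorem typq : ∃ c : ℝ, 0 < c ∧ ∀ q J D : ℕ, 0 < q → 1 ≤ J → 0 < D → ∀ p : ℝ, 0 < p →
    ((D : ℝ) + 1) * p + J / (D : ℝ) ^ 2 + q * (c / Real.sqrt J) < 1 →
    ∃ o₀ o₁ : ℕ, q ∣ o₀ ∧ o₀ ≤ o₁ ∧ J ≤ 2 * o₀ + D ∧ 2 * o₀ ≤ J + (D + 2 * q) ∧
      (∀ o ∈ Icc o₀ o₁, p * 2 ^ J ≤ (((words J).filter (fun v => ones v = o)).card : ℝ)) ∧
      ∑ v ∈ words J, ind (¬ (o₀ ≤ ones v ∧ ones v ≤ o₁)) ≤
        2 ^ J * (((D : ℝ) + 1) * p + J / (D : ℝ) ^ 2 + q * (c / Real.sqrt J)) := by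
  obtain ⟨c, hc, hbin⟩ := Pool.Agent.H499R2.LT.bin_sup
  refine ⟨c, hc, fun q J D hq hJ hD p hp hlt => ?_⟩
  have h2J : (0 : ℝ) < 2 ^ J := by positivity
  have hsq : 0 ≤ q * (c / Real.sqrt J) := by positivity
  obtain ⟨a, o₁, ho, ho1, ho2, hty, hout⟩ := typ (J := J) hD hp (by linarith)
  have e1 := sum_wd odd_one J (fun v => ind (¬ (a ≤ ones v ∧ ones v ≤ o₁)))
  have hout' : ∑ v ∈ words J, ind (¬ (a ≤ ones v ∧ ones v ≤ o₁)) ≤ 2 ^ J * (((D : ℝ) + 1) * p + J / (D : ℝ) ^ 2) := by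
    rw [← e1]; exact hout
  set o₀ := q * ((a + q - 1) / q) with ho₀
  have h1 : a ≤ o₀ ∧ o₀ < a + q := by
    have g1 := Nat.div_add_mod (a + q - 1) q
    have g2 := Nat.mod_lt (a + q - 1) hq
    rw [← ho₀] at g1
    omega
  have hcnt := count_Ico hbin hJ a q
  have hle : o₀ ≤ o₁ := by
    by_contra hcon
    have h3 : ∀ v ∈ words J, (1 : ℝ) ≤ ind (¬ (a ≤ ones v ∧ ones v ≤ o₁)) + ind (a ≤ ones v ∧ ones v < a + q) := by
      intro v _
      by_cases h : a ≤ ones v ∧ ones v ≤ o₁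
      · rw [ind_true (show a ≤ ones v ∧ ones v < a + q from ⟨h.1, by omega⟩)]
        have := ind_nonneg (¬ (a ≤ ones v ∧ ones v ≤ o₁))
        linarith
      · rw [ind_true h]
        have := ind_nonneg (a ≤ ones v ∧ ones v < a + q)
        linarith
    have h4 := sum_le_sum h3
    rw [sum_const, card_words, nsmul_eq_mul, mul_one, sum_add_distrib] at h4
    push_cast at h4
    nlinarith
  refine ⟨o₀, o₁, Dvd.intro _ rfl, hle, by omega, by omega, ?_, ?_⟩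
  · intro o ho
    rw [mem_Icc] at ho
    exact hty o (mem_Icc.2 ⟨by omega, ho.2⟩)
  · have h3 : ∀ v ∈ words J, ind (¬ (o₀ ≤ ones v ∧ ones v ≤ o₁)) ≤
        ind (¬ (a ≤ ones v ∧ ones v ≤ o₁)) + ind (a ≤ ones v ∧ ones v < a + q) := by
      intro v _
      refine le_trans (ind_mono ?_) (ind_or _ _)
      intro h
      by_cases g : a ≤ ones v ∧ ones v ≤ o₁
      · right
        exact ⟨g.1, by by_contra hcon; exact h ⟨by omega, g.2⟩⟩
      · exact Or.inl g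
    refine (sum_le_sum h3).trans ?_
    rw [sum_add_distrib]
    linarith

end Pool.Agent.H620.Inf2
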