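import Pool.Agent.H620.Inf2.Final
import Pool.Agent.H620.Gen.Side

/-! Sets of integers which are invariant under the `3x+1` map, on one side of `0`. -/

set_option autoImplicit false

namespace Pool.Agent.H620.Inf2

open Finset Filter Topology
open Pool.Agent.H499R2.ND (Inv dens_side HD_ncard one_pos one_lt)
open Pool.Agent.H620.Inf (TI ne' bits)
open DomAC0

theorem side_fam {s : ℤ} (hs : s = 1 ∨ s = -1) {S : Set ℤ} (hS : Inv 1 S) :
    Fam s (0 : ℕ) 0 0 (fun _ x => s * x ∈ S) := by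
  intro t x _
  have h := hS (s * x)
  show s * x ∈ S ↔ s * (Pool.Agent.TH930.EBQ.T s x) ∈ S
  rw [h]
  have h1 : Pool.Agent.H499R2.ND.Td 1 (s * x) = Pool.Agent.TH930.EBQ.T 1 (s * x) := rfl
  rw [h1, T_neg s x hs]

theorem side_dens {s : ℤ} (hs : s = 1 ∨ s = -1) {S : Set ℤ} (hS : Inv 1 S) (h1 : ∃ a, 0 < s * a ∧ a ∈ S)
    (h2 : ∃ a, 0 < s * a ∧ a ∉ S) : ∃ l : ℝ, 0 < l ∧ l < 1 ∧
    Tendsto (fun N : ℕ => ({n : ℕ | 1 ≤ n ∧ n ≤ N ∧ s * (n : ℤ) ∈ S}.ncard : ℝ) / N) atTop (𝓝 l) := by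
  obtain ⟨l, hl0, hl1, hl⟩ := dens_side odd_one isCoprime_one_left hs hS
  obtain ⟨a, ha, haS⟩ := h1
  obtain ⟨b, hb, hbS⟩ := h2
  have hl0' := one_pos hs hS haS ha hl
  have hl1' := one_lt hs hS hbS hb hl
  have hss : s * s = 1 := by rcases hs with rfl | rfl <;> norm_num
  refine ⟨l, hl0', hl1', ?_⟩
  refine (HD_ncard hs hl).congr fun N => ?_
  congr 2
  have : {n : ℤ | 0 < s * n ∧ s * n ≤ N ∧ n ∈ S} =
      (fun n : ℕ => s * (n : ℤ)) '' {n : ℕ | 1 ≤ n ∧ n ≤ N ∧ s * (n : ℤ) ∈ S} := by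
    ext x
    simp only [Set.mem_ofPred_eq, Set.mem_image]
    constructor
    · rintro ⟨g1, g2, g3⟩
      have e : ((s * x).toNat : ℤ) = s * x := Int.toNat_of_nonneg g1.le
      have e2 : s * ((s * x).toNat : ℤ) = x := by rw [e, ← mul_assoc, hss, one_mul]
      refine ⟨(s * x).toNat, ⟨by omega, by omega, ?_⟩, e2⟩
      rw [e2]; exact g3
    · rintro ⟨n, ⟨g1, g2, g3⟩, rfl⟩
      have e : s * (s * (n : ℤ)) = n := by rw [← mul_assoc, hss, one_mul]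
      refine ⟨by rw [e]; exact_mod_cast g1, by rw [e]; exact_mod_cast g2, g3⟩
  rw [this, Set.ncard_image_of_injective]
  intro x y hxy
  have h3 : s * (s * (x : ℤ)) = s * (s * (y : ℤ)) := by simp only at hxy; rw [hxy]
  rw [← mul_assoc, ← mul_assoc, hss, one_mul, one_mul] at h3
  exact_mod_cast h3

/-- The total influence of an invariant set, on each side where the set is nontrivial. -/
theorem side_influence {s : ℤ} (hs : s = 1 ∨ s = -1) {S : Set ℤ} (hS : Inv 1 S) (h1 : ∃ a, 0 < s * a ∧ a ∈ S)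
    (h2 : ∃ a, 0 < s * a ∧ a ∉ S) (η : ℝ) (hη : 0 < η) :
    ¬ ∀ᶠ k : ℕ in atTop, TI (fun n : ℕ => s * (n : ℤ) ∈ S) k ≤ 2 ^ k * (k : ℝ) ^ (1 / 2 - η) := by
  intro h
  obtain ⟨l, hl0, hl1, hl⟩ := side_dens hs hS h1 h2
  exact influence_fam hs (side_fam hs hS) (0 : ℕ) (Q := 1) Nat.one_pos (fun _ _ _ => Iff.rfl) hl0 hl1 hl hη h

end Pool.Agent.H620.Inf2
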