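import Pool.Agent.H620.Inf2.Tools
import Pool.Graph.R_seed8.H499R2.HL.B
import Pool.Graph.R_seed8.H499R2.NDCol

/-! The total stopping time of the Collatz map modulo `m`. -/

set_option autoImplicit false

namespace Pool.Agent.H620.Inf2

open Finset Filter Topology
open Pool.Agent.H499R2.ND (Dn Tn cnt Bas)
open Pool.Agent.H499R2.LT (Dn_sum Dn_iff law_one odn)
open Pool.Agent.H620.Inf (TI)

/-- the Collatz map -/
def Cm (n : ℕ) : ℕ := if n % 2 = 0 then n / 2 else 3 * n + 1

/-- `t` is the total stopping time of `n` -/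
def IsTime (n t : ℕ) : Prop := Cm^[t] n = 1 ∧ ∀ i < t, Cm^[i] n ≠ 1

/-- the number of the odd terms among the first `t` terms of the trajectory of `n` -/
def odds (t n : ℕ) : ℕ := ((range t).filter (fun i => Cm^[i] n % 2 = 1)).card

theorem isTime_succ {n t : ℕ} (hn : n ≠ 1) : IsTime n (t + 1) ↔ IsTime (Cm n) t := by
  unfold IsTime
  rw [Function.iterate_succ_apply]
  refine and_congr_right fun _ => ⟨fun h i hi => ?_, fun h i hi => ?_⟩
  · have := h (i + 1) (by omega)
    rwa [Function.iterate_succ_apply] at this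
  · rcases i with _ | i
    · exact hn
    · rw [Function.iterate_succ_apply]
      exact h i (by omega)

theorem isTime_unique {n t t' : ℕ} (h : IsTime n t) (h' : IsTime n t') : t = t' := by
  rcases lt_trichotomy t t' with h1 | h1 | h1
  · exact absurd h.1 (h'.2 t h1)
  · exact h1
  · exact absurd h'.1 (h.2 t' h1)

theorem card_succ (f : ℕ → ℕ) (t n : ℕ) :
    ((range (t + 1)).filter (fun i => f^[i] n % 2 = 1)).card =
      n % 2 + ((range t).filter (fun i => f^[i] (f n) % 2 = 1)).card := by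
  rw [card_filter, card_filter, sum_range_succ']
  simp only [Function.iterate_succ_apply, Function.iterate_zero, id]
  rw [add_comm]
  congr 1
  rcases Nat.mod_two_eq_zero_or_one n with h | h <;> simp [h]

theorem odds_succ (t n : ℕ) : odds (t + 1) n = n % 2 + odds t (Cm n) := card_succ Cm t n

theorem odn_succ (t n : ℕ) : odn (t + 1) n = n % 2 + odn t (Tn n) := card_succ Tn t n

/-- the numbers of the basin of `1` with the given residues modulo `m` of the total stopping time and of the number of odd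
terms -/
def Cl (m : ℕ) (E : Set (ZMod m × ZMod m)) (a : ZMod m × ZMod m) (n : ℕ) : Prop :=
  ∃ t, IsTime n t ∧ a + (((t : ℕ) : ZMod m), ((odds t n : ℕ) : ZMod m)) ∈ E

theorem Cl_step {m : ℕ} (E : Set (ZMod m × ZMod m)) (a : ZMod m × ZMod m) {n : ℕ} (hn : n ≠ 1) :
    Cl m E a n ↔ Cl m E (a + (1, ((n % 2 : ℕ) : ZMod m))) (Cm n) := by
  unfold Cl
  have e : ∀ t : ℕ, a + ((((t + 1 : ℕ) : ℕ) : ZMod m), ((odds (t + 1) n : ℕ) : ZMod m)) =
      a + (1, ((n % 2 : ℕ) : ZMod m)) + (((t : ℕ) : ZMod m), ((odds t (Cm n) : ℕ) : ZMod m)) := by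
    intro t
    rw [odds_succ]
    ext
    · push_cast
      show a.1 + ((t : ZMod m) + 1) = a.1 + 1 + (t : ZMod m)
      ring
    · push_cast
      show a.2 + ((((n % 2 : ℕ)) : ZMod m) + ((odds t (Cm n) : ℕ) : ZMod m)) =
        a.2 + (((n % 2 : ℕ)) : ZMod m) + ((odds t (Cm n) : ℕ) : ZMod m)
      ring
  constructor
  · rintro ⟨t, h1, h2⟩
    rcases t with _ | t
    · exact absurd h1.1 hn
    · exact ⟨t, (isTime_succ hn).1 h1, by rw [← e]; exact h2⟩
  · rintro ⟨t, h1, h2⟩
    exact ⟨t + 1, (isTime_succ hn).2 h1, by rw [e]; exact h2⟩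

theorem Cl_fam (m : ℕ) (E : Set (ZMod m × ZMod m)) :
    Fam 1 ((1, 0) : ZMod m × ZMod m) (1, 1) 2 (fun a x => Cl m E a x.toNat) := by
  intro a x hx
  obtain ⟨n, rfl⟩ : ∃ n : ℕ, x = n := ⟨x.toNat, by omega⟩
  have hn : 2 ≤ n := by exact_mod_cast hx
  show Cl m E a ((n : ℤ).toNat) ↔ Cl m E _ ((Pool.Agent.TH930.EBQ.T 1 (n : ℤ)).toNat)
  rw [Int.toNat_natCast]
  have h1 := Cl_step E a (n := n) (by omega)
  rcases Nat.mod_two_eq_zero_or_one n with h | h
  · have hz : (n : ℤ) % 2 = 0 := by omega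
    rw [if_pos hz, add_zero]
    have e1 : (Pool.Agent.TH930.EBQ.T 1 (n : ℤ)).toNat = Cm n := by
      unfold Pool.Agent.TH930.EBQ.T Cm
      rw [if_pos hz, if_pos h]
      omega
    rw [e1, h1, h]
    push_cast
    exact Iff.rfl
  · have hz : ¬ ((n : ℤ) % 2 = 0) := by omega
    rw [if_neg hz]
    have hC : Cm n = 3 * n + 1 := by unfold Cm; rw [if_neg (by omega)]
    have hC2 : Cm (3 * n + 1) = (3 * n + 1) / 2 := by unfold Cm; rw [if_pos (by omega)]
    have e1 : (Pool.Agent.TH930.EBQ.T 1 (n : ℤ)).toNat = (3 * n + 1) / 2 := by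
      unfold Pool.Agent.TH930.EBQ.T
      rw [if_neg hz]
      omega
    have h2 := Cl_step E (a + (1, ((n % 2 : ℕ) : ZMod m))) (n := 3 * n + 1) (by omega)
    rw [e1, h1, hC, h2, hC2, h]
    have e2 : (3 * n + 1) % 2 = 0 := by omega
    rw [e2]
    have e3 : a + ((1 : ZMod m), ((1 : ℕ) : ZMod m)) + ((1 : ZMod m), ((0 : ℕ) : ZMod m)) =
        a + (((1 : ZMod m), (0 : ZMod m)) + ((1 : ZMod m), (1 : ZMod m))) := by
      ext
      · show a.1 + 1 + 1 = a.1 + (1 + 1)
        ring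
      · show a.2 + ((1 : ℕ) : ZMod m) + ((0 : ℕ) : ZMod m) = a.2 + (0 + 1)
        push_cast
        ring
    rw [e3]

theorem Cl_per (m : ℕ) (E : Set (ZMod m × ZMod m)) (a t : ZMod m × ZMod m) (x : ℤ) :
    Cl m E (t + m • a) x.toNat ↔ Cl m E t x.toNat := by
  have : m • a = 0 := by
    ext
    · simp
    · simp
  rw [this, add_zero]

theorem time_T (k : ℕ) : ∀ n : ℕ, 1 ≤ n → (Tn^[k] n = 1 ∧ ∀ i < k, Tn^[i] n ≠ 1) →
    IsTime n (k + odn k n) ∧ odds (k + odn k n) n = odn k n := by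
  induction k with
  | zero =>
    rintro n _ ⟨h, _⟩
    have hn : n = 1 := h
    subst hn
    exact ⟨⟨rfl, fun i hi => absurd hi (by simp [odn])⟩, rfl⟩
  | succ k ih =>
    rintro n hn ⟨h1, h2⟩
    have hn1 : n ≠ 1 := h2 0 (by omega)
    have hT : 1 ≤ Tn n := by unfold Tn; split_ifs <;> omega
    obtain ⟨g1, g2⟩ := ih (Tn n) hT ⟨by rwa [Function.iterate_succ_apply] at h1, fun i hi => by
      have := h2 (i + 1) (by omega)
      rwa [Function.iterate_succ_apply] at this⟩
    rw [odn_succ]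
    rcases Nat.mod_two_eq_zero_or_one n with h | h
    · have hC : Cm n = Tn n := by unfold Cm Tn; rw [if_pos h, if_pos h]
      have e : k + 1 + (n % 2 + odn k (Tn n)) = (k + odn k (Tn n)) + 1 := by omega
      rw [e, isTime_succ hn1, odds_succ, hC]
      exact ⟨g1, by rw [g2]⟩
    · have hC : Cm n = 3 * n + 1 := by unfold Cm; rw [if_neg (by omega)]
      have hC2 : Cm (3 * n + 1) = Tn n := by unfold Cm Tn; rw [if_pos (by omega), if_neg (by omega)]
      have e : k + 1 + (n % 2 + odn k (Tn n)) = (k + odn k (Tn n)) + 1 + 1 := by omega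
      rw [e, isTime_succ hn1, odds_succ, hC, isTime_succ (by omega), odds_succ, hC2]
      refine ⟨g1, ?_⟩
      rw [g2]
      omega

theorem exists_T {n t : ℕ} (hn : 1 ≤ n) (h : IsTime n t) : ∃ k, Tn^[k] n = 1 ∧ ∀ i < k, Tn^[i] n ≠ 1 := by
  classical
  have h1 : ∃ k, Tn^[k] n = 1 := by
    have h2 : Bas n := Pool.Agent.H499R2.ND.bas_of_CN t n hn h.1
    exact h2
  exact ⟨Nat.find h1, Nat.find_spec h1, fun i hi => Nat.find_min h1 hi⟩

theorem Cl_dens {m : ℕ} (hm : 1 ≤ m) {E : Set (ZMod m × ZMod m)} (hE : E.Nonempty) (hE' : E ≠ Set.univ) :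
    ∃ l : ℝ, 0 < l ∧ l < 1 ∧ Dn (fun n => Cl m E 0 n) l := by
  classical
  obtain ⟨δ, h0, h1, _, _, h4⟩ := law_one
  have : NeZero m := ⟨by omega⟩
  set F : Finset (ℕ × ℕ) := (range m ×ˢ range m).filter
    (fun e => ((((e.1 + e.2 : ℕ)) : ZMod m), ((e.2 : ℕ) : ZMod m)) ∈ E) with hF
  have hm0 : (0 : ℝ) < m := by exact_mod_cast hm
  have hdens := Dn_sum F (fun e n => ∃ k : ℕ, (Tn^[k] n = 1 ∧ ∀ i < k, Tn^[i] n ≠ 1) ∧
      (k : ℤ) ≡ (e.1 : ℤ) [ZMOD m] ∧ (odn k n : ℤ) ≡ (e.2 : ℤ) [ZMOD m]) (fun _ => δ / (m : ℝ) ^ 2)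
    (fun e _ => (h4 m e.1 e.2 hm).1) (by
      rintro n ⟨a, b⟩ hab ⟨a', b'⟩ hab' ⟨k, hk, hk1, hk2⟩ ⟨k', hk', hk1', hk2'⟩
      have hkk : k = k' := by
        rcases lt_trichotomy k k' with g | g | g
        · exact absurd hk.1 (hk'.2 k g)
        · exact g
        · exact absurd hk'.1 (hk.2 k' g)
      subst hkk
      rw [hF, mem_filter, mem_product, mem_range, mem_range] at hab hab'
      have g1 : (a : ℤ) ≡ (a' : ℤ) [ZMOD m] := hk1.symm.trans hk1'
      have g2 : (b : ℤ) ≡ (b' : ℤ) [ZMOD m] := hk2.symm.trans hk2'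
      have g3 : a ≡ a' [MOD m] := (Int.natCast_modEq_iff).1 g1
      have g4 : b ≡ b' [MOD m] := (Int.natCast_modEq_iff).1 g2
      rw [Prod.mk.injEq]
      exact ⟨Nat.ModEq.eq_of_lt_of_lt g3 hab.1.1 hab'.1.1, Nat.ModEq.eq_of_lt_of_lt g4 hab.1.2 hab'.1.2⟩)
  rw [sum_const, nsmul_eq_mul] at hdens
  refine ⟨_, ?_, ?_, Dn_iff (fun n hn => ?_) hdens⟩
  · have hFne : F.Nonempty := by
      obtain ⟨⟨u, v⟩, huv⟩ := hE
      refine ⟨((u - v).val, v.val), ?_⟩
      rw [hF, mem_filter, mem_product, mem_range, mem_range]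
      refine ⟨⟨ZMod.val_lt _, ZMod.val_lt _⟩, ?_⟩
      push_cast
      rw [ZMod.natCast_zmod_val, ZMod.natCast_zmod_val, sub_add_cancel]
      exact huv
    have hFc : (0 : ℝ) < F.card := by exact_mod_cast card_pos.2 hFne
    positivity
  · have hFlt : F.card < m * m := by
      obtain ⟨⟨u, v⟩, huv⟩ := (Set.ne_univ_iff_exists_notMem E).1 hE'
      have h5 : F ⊂ range m ×ˢ range m := by
        rw [Finset.ssubset_iff_of_subset (filter_subset _ _)]
        refine ⟨((u - v).val, v.val), ?_, ?_⟩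
        · rw [mem_product, mem_range, mem_range]
          exact ⟨ZMod.val_lt _, ZMod.val_lt _⟩
        · rw [mem_filter, not_and]
          intro _
          push_cast
          rw [ZMod.natCast_zmod_val, ZMod.natCast_zmod_val, sub_add_cancel]
          exact huv
      have h6 := card_lt_card h5
      rwa [card_product, card_range] at h6
    have h7 : (F.card : ℝ) < m * m := by exact_mod_cast hFlt
    calc (F.card : ℝ) * (δ / (m : ℝ) ^ 2) ≤ F.card * (1 / (m : ℝ) ^ 2) := by gcongr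
      _ < (m * m) * (1 / (m : ℝ) ^ 2) := by
          apply mul_lt_mul_of_pos_right h7 (by positivity)
      _ = 1 := by field_simp
  · constructor
    · rintro ⟨⟨a, b⟩, hab, k, hk, hk1, hk2⟩
      obtain ⟨g1, g2⟩ := time_T k n hn hk
      rw [hF, mem_filter] at hab
      refine ⟨_, g1, ?_⟩
      rw [g2, zero_add]
      have e1 : ((k : ℕ) : ZMod m) = ((a : ℕ) : ZMod m) := by
        have := (ZMod.intCast_eq_intCast_iff _ _ m).2 hk1
        simpa using this
      have e2 : ((odn k n : ℕ) : ZMod m) = ((b : ℕ) : ZMod m) := by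
        have := (ZMod.intCast_eq_intCast_iff _ _ m).2 hk2
        simpa using this
      have h8 := hab.2
      push_cast at h8 ⊢
      rw [e1, e2]
      exact h8
    · rintro ⟨t, ht, ht2⟩
      obtain ⟨k, hk⟩ := exists_T hn ht
      obtain ⟨g1, g2⟩ := time_T k n hn hk
      obtain rfl := isTime_unique ht g1
      rw [g2, zero_add] at ht2
      refine ⟨(k % m, odn k n % m), ?_, k, hk, ?_, ?_⟩
      · rw [hF, mem_filter, mem_product, mem_range, mem_range]
        refine ⟨⟨Nat.mod_lt _ hm, Nat.mod_lt _ hm⟩, ?_⟩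
        push_cast at ht2 ⊢
        rw [ZMod.natCast_mod, ZMod.natCast_mod]
        exact ht2
      · rw [Int.ModEq]; push_cast; simp
      · rw [Int.ModEq]; push_cast; simp

/-- the sets given by the residues of the total stopping time and of the number of odd terms have large total influence -/
theorem Cl_large {m : ℕ} (hm : 1 ≤ m) {E : Set (ZMod m × ZMod m)} (hE : E.Nonempty) (hE' : E ≠ Set.univ) :
    Large (fun n => Cl m E 0 n) := by
  obtain ⟨l, hl0, hl1, hl⟩ := Cl_dens hm hE hE'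
  intro η hη h
  exact influence_fam (Or.inl rfl) (Cl_fam m E) (0 : ZMod m × ZMod m) (Q := m) (by omega)
    (fun a t x => Cl_per m E a t x) hl0 hl1 hl hη h

end Pool.Agent.H620.Inf2
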