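import Pool.Agent.H620.Inf2.Final

/-! Sets of large total influence: circuits for the sets, circuits with one gate. -/

set_option autoImplicit false

namespace Pool.Agent.H620.Inf2

open Finset Filter Topology
open Pool.Agent.H620.Inf (TI In ne' bits TI_approx ev_exp ev_pow ind ind_nonneg ind_mono ne'_eq_ind)
open DomAC0

/-- large total influence -/
def Large (P : ℕ → Prop) : Prop :=
  ∀ η : ℝ, 0 < η → ¬ ∀ᶠ k : ℕ in atTop, TI P k ≤ 2 ^ k * (k : ℝ) ^ (1 / 2 - η)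

theorem Large.congr {P g : ℕ → Prop} (h : ∀ n, 1 ≤ n → (P n ↔ g n)) (hg : Large g) : Large P := by
  intro η hη hP
  apply hg (η / 2) (by positivity)
  have h1 := tendsto_natCast_atTop_atTop.eventually (ev_pow 2 (show (1 : ℝ) / 2 - η < 1 / 2 - η / 2 by linarith))
  have h2 := tendsto_natCast_atTop_atTop.eventually
    (ev_exp (1 / 2 + η / 2) (show (0 : ℝ) < 1 by norm_num) (show (0 : ℝ) < Real.log 2 / 2 by
      have := Real.log_pos (show (1 : ℝ) < 2 by norm_num)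
      positivity))
  have h3 : ∀ᶠ k : ℕ in atTop, (4 : ℝ) ≤ 2 ^ (k / 2) := by
    filter_upwards [eventually_ge_atTop 4] with k hk
    calc (4 : ℝ) = 2 ^ 2 := by norm_num
      _ ≤ 2 ^ (k / 2) := pow_le_pow_right₀ (by norm_num) (by omega)
  filter_upwards [hP, h1, h2, h3, eventually_ge_atTop 1] with k a1 a2 a3 a4 a5
  have hk : (1 : ℝ) ≤ k := by exact_mod_cast a5
  have hk0 : (0 : ℝ) < k := by linarith
  have hsum : ∑ M ∈ range (2 ^ k), ne' (g M) (P M) ≤ 1 := by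
    have h4 : ∀ M ∈ range (2 ^ k), ne' (g M) (P M) ≤ ind (M = 0) := by
      intro M _
      rw [ne'_eq_ind]
      apply ind_mono
      intro h5
      by_contra h0
      exact h5 (h M (by omega)).symm
    refine (sum_le_sum h4).trans ?_
    have h5 : ∑ M ∈ range (2 ^ k), ind (M = 0) = ind ((0 : ℕ) = 0) := by
      apply sum_eq_single
      · intro b _ hb
        exact Pool.Agent.H620.Inf.ind_false hb
      · intro h
        exact absurd (mem_range.2 (by positivity)) h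
    rw [h5]
    exact Pool.Agent.H620.Inf.ind_le_one _
  have h6 := TI_approx g P k
  have h7 : 2 * (k : ℝ) * ∑ M ∈ range (2 ^ k), ne' (g M) (P M) ≤ 2 * k := by
    calc 2 * (k : ℝ) * ∑ M ∈ range (2 ^ k), ne' (g M) (P M) ≤ 2 * k * 1 := by gcongr
      _ = 2 * k := by ring
  have h8 : (4 : ℝ) * k ≤ 2 ^ k * (k : ℝ) ^ (1 / 2 - η / 2) := by
    have e : (k : ℝ) = (k : ℝ) ^ (1 / 2 + η / 2) * (k : ℝ) ^ (1 / 2 - η / 2) := by
      rw [← Real.rpow_add hk0]
      have : (1 : ℝ) / 2 + η / 2 + (1 / 2 - η / 2) = 1 := by ring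
      rw [this, Real.rpow_one]
    have hy : 0 < (k : ℝ) ^ (1 / 2 - η / 2) := Real.rpow_pos_of_pos hk0 _
    have h9 : (k : ℝ) ^ (1 / 2 + η / 2) * 4 ≤ 2 ^ k := by
      rw [Real.rpow_one] at a3
      have h10 : Real.exp (Real.log 2 / 2 * k) * 2 ^ (k / 2) ≤ 2 ^ k := by
        have e1 : (2 : ℝ) ^ (k / 2) = Real.exp (((k / 2 : ℕ) : ℝ) * Real.log 2) := by
          rw [mul_comm, Real.exp_mul, Real.exp_log (by norm_num), Real.rpow_natCast]
        have e2 : (2 : ℝ) ^ k = Real.exp ((k : ℝ) * Real.log 2) := by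
          rw [mul_comm, Real.exp_mul, Real.exp_log (by norm_num), Real.rpow_natCast]
        rw [e1, e2, ← Real.exp_add]
        apply Real.exp_le_exp.2
        have h11 : ((k / 2 : ℕ) : ℝ) ≤ k / 2 := by
          have := Nat.cast_div_le (α := ℝ) (m := k) (n := 2)
          simpa using this
        have h12 := Real.log_pos (show (1 : ℝ) < 2 by norm_num)
        have h13 : ((k / 2 : ℕ) : ℝ) * Real.log 2 ≤ k / 2 * Real.log 2 := mul_le_mul_of_nonneg_right h11 h12.le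
        linarith
      calc (k : ℝ) ^ (1 / 2 + η / 2) * 4 ≤ Real.exp (Real.log 2 / 2 * k) * 2 ^ (k / 2) := by gcongr
        _ ≤ 2 ^ k := h10
    calc (4 : ℝ) * k = ((k : ℝ) ^ (1 / 2 + η / 2) * 4) * (k : ℝ) ^ (1 / 2 - η / 2) := by
          rw [mul_right_comm, ← e]; ring
      _ ≤ 2 ^ k * (k : ℝ) ^ (1 / 2 - η / 2) := by gcongr
  have h14 : 2 ^ k * (2 * (k : ℝ) ^ (1 / 2 - η)) ≤ 2 ^ k * (k : ℝ) ^ (1 / 2 - η / 2) := by gcongr
  linarith

/-- the total influence of a set -/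
noncomputable def infl (S : Set ℕ) (k : ℕ) : ℝ :=
  ({p : ℕ × ℕ | p.1 < 2 ^ k ∧ p.2 < k ∧ ¬ (p.1 ∈ S ↔ p.1 ^^^ 2 ^ p.2 ∈ S)}.ncard : ℝ) / 2 ^ k

/-- the number of errors -/
noncomputable def errs (S : Set ℕ) {k : ℕ} (Γ : Circuit (Fin k)) : ℕ :=
  {n : ℕ | n < 2 ^ k ∧ ¬ (Γ.eval (fun i => n.testBit i) = true ↔ n ∈ S)}.ncard

theorem errs_eq (S : Set ℕ) {k : ℕ} (Γ : Circuit (Fin k)) : (errs S Γ : ℝ) =
    ∑ n ∈ range (2 ^ k), ne' (n ∈ S) (Γ.eval (bits k n) = true) := by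
  classical
  have h1 : {n : ℕ | n < 2 ^ k ∧ ¬ (Γ.eval (fun i => n.testBit i) = true ↔ n ∈ S)} =
      (((range (2 ^ k)).filter (fun n => ¬ (Γ.eval (fun i => n.testBit i) = true ↔ n ∈ S)) : Finset ℕ) : Set ℕ) := by
    ext n
    simp
  unfold errs
  rw [h1, Set.ncard_coe_finset, card_filter]
  push_cast
  apply sum_congr rfl
  intro n _
  unfold ne'
  have h2 : (fun i : Fin k => n.testBit i) = bits k n := rfl
  rw [h2]
  by_cases h : n ∈ S ↔ Γ.eval (bits k n) = true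
  · rw [if_pos h, if_neg (not_not.2 h.symm)]
  · rw [if_neg h, if_pos (fun g => h g.symm)]

theorem infl_eq (S : Set ℕ) (k : ℕ) : infl S k = TI (fun n => n ∈ S) k / 2 ^ k := by
  classical
  have h1 : {p : ℕ × ℕ | p.1 < 2 ^ k ∧ p.2 < k ∧ ¬ (p.1 ∈ S ↔ p.1 ^^^ 2 ^ p.2 ∈ S)} =
      ((((range (2 ^ k)) ×ˢ (range k)).filter (fun p => ¬ (p.1 ∈ S ↔ p.1 ^^^ 2 ^ p.2 ∈ S)) : Finset (ℕ × ℕ)) :
        Set (ℕ × ℕ)) := by
    ext p
    simp only [Set.mem_ofPred_eq, coe_filter, mem_product, mem_range]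
    tauto
  unfold infl
  rw [h1, Set.ncard_coe_finset, card_filter, sum_product_right]
  congr 1
  push_cast
  unfold TI In
  apply sum_congr rfl
  intro i _
  apply sum_congr rfl
  intro n _
  unfold ne'
  by_cases h : n ∈ S ↔ n ^^^ 2 ^ i ∈ S
  · rw [if_pos h, if_neg (not_not.2 h)]
  · rw [if_neg h, if_pos h]

theorem large_infl {S : Set ℕ} (hS : Large (fun n => n ∈ S)) {c : ℝ} (hc : c < 1 / 2) :
    ∃ᶠ k : ℕ in atTop, (k : ℝ) ^ c < infl S k := by
  by_contra hcon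
  rw [not_frequently] at hcon
  apply hS (1 / 2 - c) (by linarith)
  filter_upwards [hcon] with k hk
  rw [not_lt, infl_eq, div_le_iff₀ (by positivity)] at hk
  have e : (1 : ℝ) / 2 - (1 / 2 - c) = c := by ring
  rw [e, mul_comm]
  exact hk

theorem large_circ {S : Set ℕ} (hS : Large (fun n => n ∈ S)) {c : ℝ} (hc0 : 0 < c) (hc : c < 1 / 2) {D : ℕ}
    (hD : 2 ≤ D) : ∃ᶠ k : ℕ in atTop, ∀ Γ : Circuit (Fin k), Γ.depth ≤ D →
      (Γ.size : ℝ) ≤ Real.exp ((k : ℝ) ^ (c / (D - 1))) → (2 : ℝ) ^ k / (k : ℝ) ^ (1 - c) < errs S Γ := by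
  obtain ⟨d, rfl⟩ : ∃ d, D = d + 2 := ⟨D - 2, by omega⟩
  refine (circuits_of hS hc0 hc d).mono ?_
  intro k hk Γ hΓ hs
  rw [errs_eq]
  apply hk Γ hΓ
  have e : ((d + 2 : ℕ) : ℝ) - 1 = d + 1 := by push_cast; ring
  rw [e] at hs
  exact hs

/-- small circuits with few errors -/
def Easy (S : Set ℕ) : Prop :=
  ∃ (D : ℕ) (c : ℝ), 2 ≤ D ∧ 0 < c ∧ c < 1 / 2 ∧ ∀ᶠ k : ℕ in atTop, ∃ Γ : Circuit (Fin k), Γ.depth ≤ D ∧
    (Γ.size : ℝ) ≤ Real.exp ((k : ℝ) ^ (c / (D - 1))) ∧ (errs S Γ : ℝ) ≤ (2 : ℝ) ^ k / (k : ℝ) ^ (1 - c)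

theorem Large.not_easy {S : Set ℕ} (hS : Large (fun n => n ∈ S)) : ¬ Easy S := by
  rintro ⟨D, c, hD, hc0, hc, h⟩
  obtain ⟨k, hk1, Γ, g1, g2, g3⟩ := ((large_circ hS hc0 hc hD).and_eventually h).exists
  exact absurd (hk1 Γ g1 g2) (not_lt.2 g3)

/-- circuits of constant depth and polynomial size -/
def AC0 (S : Set ℕ) : Prop :=
  ∃ D A : ℕ, ∀ k : ℕ, 1 ≤ k → ∃ Γ : Circuit (Fin k), Γ.depth ≤ D ∧ Γ.size ≤ k ^ A ∧
    ∀ n, 1 ≤ n → n < 2 ^ k → (Γ.eval (fun i => n.testBit i) = true ↔ n ∈ S)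

theorem AC0.easy {S : Set ℕ} (h : AC0 S) : Easy S := by
  obtain ⟨D, A, h⟩ := h
  refine ⟨D + 2, 1 / 4, by omega, by norm_num, by norm_num, ?_⟩
  have e1 := tendsto_natCast_atTop_atTop.eventually (ev_exp (A : ℝ)
    (show (0 : ℝ) < 1 / 4 / ((D + 2 : ℕ) - 1) by
      have : (0 : ℝ) < ((D + 2 : ℕ) : ℝ) - 1 := by push_cast; linarith [(Nat.cast_nonneg D : (0 : ℝ) ≤ D)]
      positivity) (show (0 : ℝ) < 1 by norm_num))
  filter_upwards [e1, eventually_ge_atTop 1] with k hk hk1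
  have hkr : (1 : ℝ) ≤ k := by exact_mod_cast hk1
  obtain ⟨Γ, g1, g2, g3⟩ := h k hk1
  refine ⟨Γ, by omega, ?_, ?_⟩
  · have h1 : (Γ.size : ℝ) ≤ (k : ℝ) ^ (A : ℝ) := by
      rw [Real.rpow_natCast]
      exact_mod_cast g2
    rw [one_mul] at hk
    exact h1.trans hk
  · have h1 : errs S Γ ≤ 1 := by
      unfold errs
      refine le_trans (Set.ncard_le_ncard (t := {0}) ?_ (Set.finite_singleton 0)) (by simp)
      rintro n ⟨h1, h2⟩
      rw [Set.mem_singleton_iff]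
      by_contra h0
      exact h2 (g3 n (by omega) h1)
    have h2 : (errs S Γ : ℝ) ≤ 1 := by exact_mod_cast h1
    refine h2.trans ?_
    rw [one_le_div (by positivity)]
    calc (k : ℝ) ^ (1 - 1 / 4 : ℝ) ≤ (k : ℝ) ^ (1 : ℝ) := Real.rpow_le_rpow_of_exponent_le hkr (by norm_num)
      _ = k := Real.rpow_one _
      _ ≤ 2 ^ k := by exact_mod_cast Nat.lt_two_pow_self.le

theorem Large.not_AC0 {S : Set ℕ} (hS : Large (fun n => n ∈ S)) : ¬ AC0 S := fun h => hS.not_easy h.easy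

/-- The circuit with one gate, which is true. -/
noncomputable def oneC (k : ℕ) : Circuit (Fin k) where
  size := 1
  kind := fun _ => DomAC0.GateKind.and
  preds := fun _ => ∅
  acyclic := fun _ _ h => absurd h (notMem_empty _)
  unary := fun _ h => by cases h
  output := Sum.inr 0

theorem oneC_eval (k : ℕ) (x : Fin k → Bool) : (oneC k).eval x = true := by
  unfold Circuit.eval
  show (oneC k).gateVal x ⟨0, Nat.one_pos⟩ = true
  rw [Circuit.gateVal]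
  have h : (oneC k).kind ⟨0, Nat.one_pos⟩ = DomAC0.GateKind.and := rfl
  simp only [h, decide_eq_true_eq]
  intro v hv
  exact absurd hv (notMem_empty v)

theorem oneC_depth (k : ℕ) : (oneC k).depth = 1 := by
  unfold Circuit.depth
  show (oneC k).gateDepth ⟨0, Nat.one_pos⟩ = 1
  rw [Circuit.gateDepth]
  have h : ((oneC k).preds ⟨0, Nat.one_pos⟩).attach = ∅ := rfl
  rw [h, sup_empty]
  rfl

theorem AC0_all {S : Set ℕ} (h : ∀ n, 1 ≤ n → n ∈ S) : AC0 S :=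
  ⟨1, 0, fun k _ => ⟨oneC k, by rw [oneC_depth], by simp [oneC], fun n hn _ => by
    rw [oneC_eval]
    exact ⟨fun _ => h n hn, fun _ => rfl⟩⟩⟩

/-- The circuit with one gate, which is false. -/
noncomputable def zeroC (k : ℕ) : Circuit (Fin k) where
  size := 1
  kind := fun _ => DomAC0.GateKind.or
  preds := fun _ => ∅
  acyclic := fun _ _ h => absurd h (notMem_empty _)
  unary := fun _ h => by cases h
  output := Sum.inr 0

theorem zeroC_eval (k : ℕ) (x : Fin k → Bool) : (zeroC k).eval x = false := by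
  unfold Circuit.eval
  show (zeroC k).gateVal x ⟨0, Nat.one_pos⟩ = false
  rw [Circuit.gateVal]
  have h : (zeroC k).kind ⟨0, Nat.one_pos⟩ = DomAC0.GateKind.or := rfl
  simp only [h, decide_eq_false_iff_not]
  rintro ⟨v, hv, _⟩
  exact absurd hv (notMem_empty v)

theorem zeroC_depth (k : ℕ) : (zeroC k).depth = 1 := by
  unfold Circuit.depth
  show (zeroC k).gateDepth ⟨0, Nat.one_pos⟩ = 1
  rw [Circuit.gateDepth]
  have h : ((zeroC k).preds ⟨0, Nat.one_pos⟩).attach = ∅ := rfl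
  rw [h, sup_empty]
  rfl

theorem AC0_none {S : Set ℕ} (h : ∀ n, 1 ≤ n → n ∉ S) : AC0 S :=
  ⟨1, 0, fun k _ => ⟨zeroC k, by rw [zeroC_depth], by simp [zeroC], fun n hn _ => by
    rw [zeroC_eval]
    exact ⟨fun g => absurd g (by simp), fun g => absurd g (h n hn)⟩⟩⟩

end Pool.Agent.H620.Inf2
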