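import Pool.Agent.H620.Inf2.Scale
import Pool.Agent.H620.Inf.Window

/-! Truncation of a family at small numbers. -/

set_option autoImplicit false

namespace Pool.Agent.H620.Inf2

open Finset
open Pool.Agent.TH930.EBQ (ones wd words cw T)
open Pool.Agent.H499R2.CO (Tz q step)
open Pool.Agent.H620.Inf (ind ind_nonneg ind_le_one ind_true ind_false ind_mono ind_or ne'_eq_ind ne' ne'_tri ne'_comm In
  xor_lt sum_split ind_tri ind_comm)

theorem In_approx (P g : ℕ → Prop) {k j : ℕ} (hj : j < k) :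
    In P k j ≤ In g k j + 2 * ∑ M ∈ range (2 ^ k), ne' (P M) (g M) := by
  have h2 : ∑ M ∈ range (2 ^ k), ne' (P (M ^^^ 2 ^ j)) (g (M ^^^ 2 ^ j)) = ∑ M ∈ range (2 ^ k), ne' (P M) (g M) := by
    apply sum_nbij' (fun M => M ^^^ 2 ^ j) (fun M => M ^^^ 2 ^ j)
    · intro M hM
      rw [mem_range] at hM ⊢
      exact xor_lt hM hj
    · intro M hM
      rw [mem_range] at hM ⊢
      exact xor_lt hM hj
    · intro M _
      rw [Nat.xor_assoc, Nat.xor_self, Nat.xor_zero]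
    · intro M _
      rw [Nat.xor_assoc, Nat.xor_self, Nat.xor_zero]
    · intro M _
      rfl
  unfold In
  calc ∑ M ∈ range (2 ^ k), ne' (P M) (P (M ^^^ 2 ^ j))
      ≤ ∑ M ∈ range (2 ^ k), (ne' (P M) (g M) + ne' (g M) (g (M ^^^ 2 ^ j)) + ne' (P (M ^^^ 2 ^ j)) (g (M ^^^ 2 ^ j))) := by
        apply sum_le_sum
        intro M _
        have a1 := ne'_tri (P M) (g M) (P (M ^^^ 2 ^ j))
        have a2 := ne'_tri (g M) (g (M ^^^ 2 ^ j)) (P (M ^^^ 2 ^ j))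
        rw [ne'_comm (g (M ^^^ 2 ^ j)) (P (M ^^^ 2 ^ j))] at a2
        linarith
    _ = _ := by
        rw [sum_add_distrib, sum_add_distrib, h2]
        ring

variable {d : ℤ} {A : Type} [AddCommMonoid A] {α β : A} {n₀ : ℕ} {R : A → ℤ → Prop}

/-- the truncated set -/
def TP (R : A → ℤ → Prop) (s : A) (n₀ J b : ℕ) (n : ℕ) : Prop := 2 ^ (J + b) * n₀ ≤ n ∧ R s (n : ℤ)

/-- the truncated values -/
def TV (α β : A) (R : A → ℤ → Prop) (s : A) (n₀ J b : ℕ) (U o : ℕ) (z : ℤ) : Prop :=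
  2 ^ b * n₀ ≤ U ∧ R (s + (J • α + o • β)) (3 ^ o * U + z)

theorem TP_TV (hd : Sg d) (hR : Fam d α β n₀ R) (s : A) (J b : ℕ) (U : ℕ) {L : ℕ} (hL : L < 2 ^ J) :
    TP R s n₀ J b (2 ^ J * U + L) ↔ TV α β R s n₀ J b U (aw d J L) (cv d J L) := by
  unfold TP TV
  have h1 : 2 ^ (J + b) * n₀ ≤ 2 ^ J * U + L ↔ 2 ^ b * n₀ ≤ U := by
    rw [pow_add, mul_assoc]
    constructor
    · intro h
      by_contra hcon
      have h2 : U + 1 ≤ 2 ^ b * n₀ := by omega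
      have h3 : 2 ^ J * (U + 1) ≤ 2 ^ J * (2 ^ b * n₀) := Nat.mul_le_mul_left _ h2
      rw [Nat.mul_add, mul_one] at h3
      omega
    · intro h
      have h3 : 2 ^ J * (2 ^ b * n₀) ≤ 2 ^ J * U := Nat.mul_le_mul_left _ h
      omega
  rw [h1]
  constructor
  · rintro ⟨h2, h3⟩
    refine ⟨h2, ?_⟩
    have h4 : (n₀ : ℤ) ≤ (U : ℤ) := by
      have : n₀ ≤ 2 ^ b * n₀ := Nat.le_mul_of_pos_left _ (by positivity)
      exact_mod_cast this.trans h2
    have h5 := fam_val hd hR s J h4 L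
    push_cast at h3
    exact h5.1 h3
  · rintro ⟨h2, h3⟩
    refine ⟨h2, ?_⟩
    have h4 : (n₀ : ℤ) ≤ (U : ℤ) := by
      have : n₀ ≤ 2 ^ b * n₀ := Nat.le_mul_of_pos_left _ (by positivity)
      exact_mod_cast this.trans h2
    have h5 := fam_val hd hR s J h4 L
    push_cast
    exact h5.2 h3

theorem TP_coal (hd : Sg d) (hR : Fam d α β n₀ R) (s : A) {μ b : ℕ}
    (hq : ∀ i ≤ 1, ∀ r : ℤ, |r| ≤ 3 ^ (μ + 1) → q step (0, 0) b (i, r) ≤ 1 / 2) {par J L L' : ℕ}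
    (hL : L < 2 ^ J) (hL' : L' < 2 ^ J) (h : pt d μ par J L = pt d μ par J L') :
    ∃ G ⊆ range (2 ^ b), (2 : ℝ) ^ b ≤ 2 * G.card ∧ ∀ M ∈ G, ∀ U : ℕ,
      (TP R s n₀ J b (2 ^ J * (2 ^ b * U + M) + L) ↔ TP R s n₀ J b (2 ^ J * (2 ^ b * U + M) + L')) := by
  obtain ⟨G, h1, h2, h3⟩ := coal_part hd hR s hq h
  refine ⟨G, h1, h2, fun M hM U => ?_⟩
  have hMb := mem_range.1 (h1 hM)
  have key : ∀ L < 2 ^ J, (2 ^ (J + b) * n₀ ≤ 2 ^ J * (2 ^ b * U + M) + L ↔ n₀ ≤ U) := by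
    intro L hL
    constructor
    · intro h
      by_contra hcon
      have h4 : U + 1 ≤ n₀ := by omega
      have h5 : 2 ^ (J + b) * (U + 1) ≤ 2 ^ (J + b) * n₀ := Nat.mul_le_mul_left _ h4
      have h6 : 2 ^ J * (2 ^ b * U + M) + L < 2 ^ (J + b) * (U + 1) := by
        have g1 : 2 ^ J * (M + 1) ≤ 2 ^ J * 2 ^ b := Nat.mul_le_mul_left _ hMb
        have g2 : 2 ^ (J + b) * (U + 1) = 2 ^ J * (2 ^ b * U) + 2 ^ J * 2 ^ b := by rw [pow_add]; ring
        have g3 : 2 ^ J * (2 ^ b * U + M) = 2 ^ J * (2 ^ b * U) + 2 ^ J * M := by ring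
        have g4 : 2 ^ J * (M + 1) = 2 ^ J * M + 2 ^ J := by ring
        omega
      omega
    · intro h
      have h5 : 2 ^ (J + b) * n₀ ≤ 2 ^ (J + b) * U := Nat.mul_le_mul_left _ h
      have g2 : 2 ^ (J + b) * U = 2 ^ J * (2 ^ b * U) := by rw [pow_add]; ring
      have g3 : 2 ^ J * (2 ^ b * U + M) = 2 ^ J * (2 ^ b * U) + 2 ^ J * M := by ring
      omega
  unfold TP
  rw [key L hL, key L' hL']
  constructor
  · rintro ⟨h4, h5⟩
    exact ⟨h4, (h3 M hM U h4).1 h5⟩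
  · rintro ⟨h4, h5⟩
    exact ⟨h4, (h3 M hM U h4).2 h5⟩

theorem sum_lt_ind (N K : ℕ) : ∑ n ∈ range N, ind (n < K) ≤ K := by
  classical
  rw [← Pool.Agent.H620.Inf.card_eq_ind]
  have : (range N).filter (fun n => n < K) ⊆ range K := by
    intro n hn
    rw [mem_filter] at hn
    exact mem_range.2 hn.2
  have h := card_le_card this
  rw [card_range] at h
  exact_mod_cast h

theorem TP_diff (s : A) (J b N : ℕ) :
    ∑ n ∈ range N, ne' (TP R s n₀ J b n) (R s (n : ℤ)) ≤ 2 ^ (J + b) * n₀ := by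
  have h : ∀ n ∈ range N, ne' (TP R s n₀ J b n) (R s (n : ℤ)) ≤ ind (n < 2 ^ (J + b) * n₀) := by
    intro n _
    rw [ne'_eq_ind]
    apply ind_mono
    intro h
    by_contra hcon
    apply h
    unfold TP
    constructor
    · exact fun g => g.2
    · exact fun g => ⟨by omega, g⟩
  refine (sum_le_sum h).trans ((sum_lt_ind _ _).trans (le_of_eq ?_))
  push_cast
  ring

end Pool.Agent.H620.Inf2
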